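import Mathlib

/-!
# Invariant and anti-invariant forms
-/

set_option autoImplicit false

namespace Pool.Agent.V1128.INV

variable {E K : Type} [Field E] [Field K] [Algebra E K]

/-- The invariant elements. -/
def Pl (s : K ≃ₐ[E] K) (L : Submodule E K) : Submodule E K where
  carrier := {y | y ∈ L ∧ s y = y}
  zero_mem' := ⟨L.zero_mem, map_zero _⟩
  add_mem' := by
    rintro a b ⟨ha, ha'⟩ ⟨hb, hb'⟩
    exact ⟨L.add_mem ha hb, by rw [map_add, ha', hb']⟩
  smul_mem' := by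
    rintro c a ⟨ha, ha'⟩
    exact ⟨L.smul_mem c ha, by rw [map_smul, ha']⟩

/-- The anti-invariant elements. -/
def Mn (s : K ≃ₐ[E] K) (L : Submodule E K) : Submodule E K where
  carrier := {y | y ∈ L ∧ s y = - y}
  zero_mem' := ⟨L.zero_mem, by rw [map_zero, neg_zero]⟩
  add_mem' := by
    rintro a b ⟨ha, ha'⟩ ⟨hb, hb'⟩
    exact ⟨L.add_mem ha hb, by rw [map_add, ha', hb', neg_add]⟩
  smul_mem' := by
    rintro c a ⟨ha, ha'⟩
    exact ⟨L.smul_mem c ha, by rw [map_smul, ha', smul_neg]⟩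

lemma mem_Pl {s : K ≃ₐ[E] K} {L : Submodule E K} {y : K} : y ∈ Pl s L ↔ y ∈ L ∧ s y = y := Iff.rfl

lemma mem_Mn {s : K ≃ₐ[E] K} {L : Submodule E K} {y : K} : y ∈ Mn s L ↔ y ∈ L ∧ s y = - y :=
  Iff.rfl

lemma Pl_le (s : K ≃ₐ[E] K) (L : Submodule E K) : Pl s L ≤ L := fun _ hz => hz.1

lemma Mn_le (s : K ≃ₐ[E] K) (L : Submodule E K) : Mn s L ≤ L := fun _ hz => hz.1

/-- The projection to the invariant elements. -/
def pr (s : K ≃ₐ[E] K) : K →ₗ[E] K := (2 : E)⁻¹ • (LinearMap.id + s.toLinearMap)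

lemma pr_apply (s : K ≃ₐ[E] K) (y : K) : pr s y = (2 : E)⁻¹ • (y + s y) := rfl

lemma pow_stable {s : K ≃ₐ[E] K} {L : Submodule E K} (h : ∀ y ∈ L, s y ∈ L) (d : ℕ) :
    ∀ y ∈ L ^ d, s y ∈ L ^ d := by
  induction d with
  | zero =>
    intro y hy
    rw [pow_zero, Submodule.mem_one] at hy ⊢
    obtain ⟨e, rfl⟩ := hy
    exact ⟨e, by rw [s.commutes]⟩
  | succ d ih =>
    intro y hy
    rw [pow_succ] at hy ⊢
    refine Submodule.mul_induction_on hy (fun a ha b hb => ?_) (fun a b ha hb => ?_)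
    · rw [map_mul]
      exact Submodule.mul_mem_mul (ih a ha) (h b hb)
    · rw [map_add]
      exact Submodule.add_mem _ ha hb

section

variable [CharZero E]

lemma half (y : K) : (2 : E)⁻¹ • (y + y) = y := by
  rw [← two_smul E y, smul_smul, inv_mul_cancel₀ two_ne_zero, one_smul]

lemma split {s : K ≃ₐ[E] K} (hs : ∀ y, s (s y) = y) {L : Submodule E K} (h : ∀ y ∈ L, s y ∈ L)
    {y : K} (hy : y ∈ L) : ∃ a ∈ Pl s L, ∃ b ∈ Mn s L, y = a + b := by
  refine ⟨(2 : E)⁻¹ • (y + s y), ⟨L.smul_mem _ (L.add_mem hy (h y hy)), ?_⟩,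
    (2 : E)⁻¹ • (y - s y), ⟨L.smul_mem _ (L.sub_mem hy (h y hy)), ?_⟩, ?_⟩
  · rw [map_smul, map_add, hs, add_comm]
  · rw [map_smul, map_sub, hs, ← smul_neg, neg_sub]
  · rw [← smul_add]
    have : y + s y + (y - s y) = y + y := by ring
    rw [this, half]

lemma sup_eq {s : K ≃ₐ[E] K} (hs : ∀ y, s (s y) = y) {L : Submodule E K} (h : ∀ y ∈ L, s y ∈ L) :
    L = Pl s L + Mn s L := by
  apply le_antisymm
  · intro y hy
    obtain ⟨a, ha, b, hb, rfl⟩ := split hs h hy
    exact Submodule.add_mem_sup ha hb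
  · rw [Submodule.add_eq_sup]
    exact sup_le (fun y hy => hy.1) (fun y hy => hy.1)

/-- The anti-invariant elements of a square. -/
lemma mn_sq {s : K ≃ₐ[E] K} (hs : ∀ y, s (s y) = y) {L : Submodule E K} (h : ∀ y ∈ L, s y ∈ L) :
    Mn s (L * L) = Pl s L * Mn s L := by
  apply le_antisymm
  · have key : ∀ y ∈ L * L, y - s y ∈ Pl s L * Mn s L := by
      intro y hy
      refine Submodule.mul_induction_on hy (fun c hc c' hc' => ?_) (fun a b ha hb => ?_)
      · obtain ⟨a, ha, b, hb, rfl⟩ := split hs h hc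
        obtain ⟨a', ha', b', hb', rfl⟩ := split hs h hc'
        have h1 : (a + b) * (a' + b') - s ((a + b) * (a' + b')) =
            (2 : E) • (a * b') + (2 : E) • (a' * b) := by
          rw [map_mul, map_add, map_add, ha.2, ha'.2, hb.2, hb'.2, two_smul, two_smul]
          ring
        rw [h1]
        exact Submodule.add_mem _ (Submodule.smul_mem _ _ (Submodule.mul_mem_mul ha hb'))
          (Submodule.smul_mem _ _ (Submodule.mul_mem_mul ha' hb))
      · have : a + b - s (a + b) = (a - s a) + (b - s b) := by rw [map_add]; ring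
        rw [this]
        exact Submodule.add_mem _ ha hb
    intro y hy
    have h1 := key y hy.1
    rw [hy.2, sub_neg_eq_add] at h1
    have h2 := Submodule.smul_mem _ ((2 : E)⁻¹) h1
    rwa [half] at h2
  · intro y hy
    refine Submodule.mul_induction_on hy (fun c hc c' hc' => ?_) (fun a b ha hb => ?_)
    · exact ⟨Submodule.mul_mem_mul hc.1 hc'.1, by rw [map_mul, hc.2, hc'.2, mul_neg]⟩
    · exact Submodule.add_mem _ ha hb

end

lemma pw {a b : Submodule E K} (G : Submodule E K) (n : ℕ) : ∀ e₁ e₂ : ℕ,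
    (∀ i j, i + j = n → a ^ (i + e₁) * b ^ (j + e₂) ≤ G) → (a + b) ^ n * (a ^ e₁ * b ^ e₂) ≤ G := by
  induction n with
  | zero =>
    intro e₁ e₂ h
    have := h 0 0 rfl
    rw [zero_add, zero_add] at this
    rwa [pow_zero, one_mul]
  | succ n ih =>
    intro e₁ e₂ h
    have h1 : (a + b) ^ (n + 1) * (a ^ e₁ * b ^ e₂) =
        (a + b) ^ n * (a ^ (e₁ + 1) * b ^ e₂) + (a + b) ^ n * (a ^ e₁ * b ^ (e₂ + 1)) := by
      ring
    rw [h1, Submodule.add_eq_sup]
    refine sup_le (ih _ _ fun i j hij => ?_) (ih _ _ fun i j hij => ?_)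
    · have := h (i + 1) j (by omega)
      rwa [add_assoc, add_comm 1] at this
    · have := h i (j + 1) (by omega)
      rwa [add_assoc j, add_comm 1] at this

lemma pl_pow {s : K ≃ₐ[E] K} {L : Submodule E K} (i : ℕ) : ∀ y ∈ Pl s L ^ i, s y = y := by
  induction i with
  | zero =>
    intro y hy
    rw [pow_zero, Submodule.mem_one] at hy
    obtain ⟨e, rfl⟩ := hy
    exact s.commutes e
  | succ i ih =>
    intro y hy
    rw [pow_succ] at hy
    refine Submodule.mul_induction_on hy (fun a ha b hb => ?_) (fun a b ha hb => ?_)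
    · rw [map_mul, ih a ha, hb.2]
    · rw [map_add, ha, hb]

lemma mn_pow {s : K ≃ₐ[E] K} {L : Submodule E K} (i : ℕ) : ∀ y ∈ Mn s L ^ i,
    s y = (-1) ^ i * y := by
  induction i with
  | zero =>
    intro y hy
    rw [pow_zero, Submodule.mem_one] at hy
    obtain ⟨e, rfl⟩ := hy
    rw [s.commutes, pow_zero, one_mul]
  | succ i ih =>
    intro y hy
    rw [pow_succ] at hy
    refine Submodule.mul_induction_on hy (fun a ha b hb => ?_) (fun a b ha hb => ?_)
    · rw [map_mul, ih a ha, hb.2, pow_succ]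
      ring
    · rw [map_add, ha, hb, mul_add]

lemma pl_mn {s : K ≃ₐ[E] K} {L : Submodule E K} (i j : ℕ) : ∀ y ∈ Pl s L ^ i * Mn s L ^ j,
    s y = (-1) ^ j * y := by
  intro y hy
  refine Submodule.mul_induction_on hy (fun a ha b hb => ?_) (fun a b ha hb => ?_)
  · rw [map_mul, pl_pow i a ha, mn_pow j b hb]
    ring
  · rw [map_add, ha, hb, mul_add]

lemma mn_le {s : K ≃ₐ[E] K} {L : Submodule E K} (i j : ℕ) (hj : Odd j) :
    Pl s L ^ i * Mn s L ^ j ≤ Mn s (L ^ (i + j)) := by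
  intro y hy
  refine ⟨?_, ?_⟩
  · rw [pow_add]
    have hle : Pl s L ^ i * Mn s L ^ j ≤ L ^ i * L ^ j :=
      mul_le_mul' (pow_le_pow_left' (Pl_le s L) i) (pow_le_pow_left' (Mn_le s L) j)
    exact hle hy
  · rw [pl_mn i j y hy, hj.neg_one_pow, neg_one_mul]

lemma free_pow {N c : Submodule E K} {n : ℕ} (h : N ^ (n + 2) ≤ N ^ n * c) (j : ℕ) :
    N ^ (n + 2 * j) ≤ N ^ n * c ^ j := by
  induction j with
  | zero => rw [mul_zero, add_zero, pow_zero, mul_one]
  | succ j ih =>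
    calc N ^ (n + 2 * (j + 1)) = N ^ (n + 2 * j) * N ^ 2 := by rw [← pow_add]; ring_nf
      _ ≤ (N ^ n * c ^ j) * N ^ 2 := mul_le_mul' ih le_rfl
      _ = N ^ (n + 2) * c ^ j := by ring
      _ ≤ (N ^ n * c) * c ^ j := mul_le_mul' h le_rfl
      _ = N ^ n * c ^ (j + 1) := by ring

/-- If there are no fixed points, then the products of anti-invariant forms of degree `8` span the
invariant forms of large degree. -/
theorem free_eq [CharZero E] {s : K ≃ₐ[E] K} (hs : ∀ y, s (s y) = y) {N : Submodule E K}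
    (hN : ∀ y ∈ N, s y ∈ N) {n : ℕ} (h : N ^ (n + 2) ≤ N ^ n * (Pl s N * Mn s N)) {t : ℕ}
    (ht : n ≤ t) : Mn s (N ^ 8) ^ (2 * t) = Pl s (N ^ (16 * t)) := by
  apply le_antisymm
  · intro y hy
    refine ⟨?_, ?_⟩
    · have : N ^ (16 * t) = (N ^ 8) ^ (2 * t) := by rw [← pow_mul]; ring_nf
      rw [this]
      have hle : Mn s (N ^ 8) ^ (2 * t) ≤ (N ^ 8) ^ (2 * t) := pow_le_pow_left' (Mn_le s _) _
      exact hle hy
    · rw [mn_pow _ y hy, (even_two_mul t).neg_one_pow, one_mul]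
  · have hab := sup_eq hs hN
    have h1 : N ^ (16 * t) ≤ (Pl s N + Mn s N) ^ (2 * n) *
        (Pl s N ^ (8 * t - n) * Mn s N ^ (8 * t - n)) := by
      calc N ^ (16 * t) = N ^ n * N ^ (n + 2 * (8 * t - n)) := by
            rw [← pow_add]; congr 1; omega
        _ ≤ N ^ n * (N ^ n * (Pl s N * Mn s N) ^ (8 * t - n)) :=
            mul_le_mul' le_rfl (free_pow h _)
        _ = N ^ (2 * n) * (Pl s N ^ (8 * t - n) * Mn s N ^ (8 * t - n)) := by
            rw [mul_pow (Pl s N)]; ring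
        _ = _ := by rw [← hab]
    have h53 : Pl s N ^ 5 * Mn s N ^ 3 ≤ Mn s (N ^ 8) := mn_le 5 3 (by decide)
    have h35 : Pl s N ^ 3 * Mn s N ^ 5 ≤ Mn s (N ^ 8) := mn_le 3 5 (by decide)
    have h2 : (Pl s N + Mn s N) ^ (2 * n) * (Pl s N ^ (8 * t - n) * Mn s N ^ (8 * t - n)) ≤
        (Mn s (N ^ 8) ^ (2 * t)).comap (pr s) := by
      refine pw _ _ _ _ fun i j hij y hy => ?_
      rw [Submodule.mem_comap, pr_apply, pl_mn _ _ y hy]
      rcases Nat.even_or_odd (j + (8 * t - n)) with hj | hj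
      · rw [hj.neg_one_pow, one_mul, half]
        obtain ⟨v, hv⟩ : ∃ v, j + (8 * t - n) = 6 * t + 2 * v := by
          obtain ⟨w, hw⟩ := hj
          exact ⟨w - 3 * t, by omega⟩
        have hi : i + (8 * t - n) = 10 * t - 2 * v := by omega
        have hv2 : v ≤ 2 * t := by omega
        rw [hv, hi] at hy
        have h3 : Pl s N ^ (10 * t - 2 * v) * Mn s N ^ (6 * t + 2 * v) =
            (Pl s N ^ 5 * Mn s N ^ 3) ^ (2 * t - v) * (Pl s N ^ 3 * Mn s N ^ 5) ^ v := by
          obtain ⟨w, hw⟩ := Nat.exists_eq_add_of_le hv2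
          have e1 : 2 * t - v = w := by omega
          have e2 : 10 * t - 2 * v = 5 * w + 3 * v := by omega
          have e3 : 6 * t + 2 * v = 3 * w + 5 * v := by omega
          rw [e1, e2, e3, pow_add, pow_add, pow_mul, pow_mul, pow_mul, pow_mul, mul_pow, mul_pow]
          ring
        rw [h3] at hy
        have h4 : Mn s (N ^ 8) ^ (2 * t) = Mn s (N ^ 8) ^ (2 * t - v) * Mn s (N ^ 8) ^ v := by
          rw [← pow_add]
          congr 1
          omega
        rw [h4]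
        have hle : (Pl s N ^ 5 * Mn s N ^ 3) ^ (2 * t - v) * (Pl s N ^ 3 * Mn s N ^ 5) ^ v ≤
            Mn s (N ^ 8) ^ (2 * t - v) * Mn s (N ^ 8) ^ v :=
          mul_le_mul' (pow_le_pow_left' h53 _) (pow_le_pow_left' h35 _)
        exact hle hy
      · rw [hj.neg_one_pow, neg_one_mul, add_neg_cancel, smul_zero]
        exact Submodule.zero_mem _
    intro y hy
    have h3 := h2 (h1 hy.1)
    rwa [Submodule.mem_comap, pr_apply, hy.2, half] at h3

end Pool.Agent.V1128.INV
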