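import Pool.Agent.Y223.INV.TwFin
import Pool.Agent.V1128.INV.Alg

/-!
# Regular models of the quotients of projective varieties by involutions: the good module
-/

set_option autoImplicit false
set_option linter.unusedVariables false
set_option linter.unusedSectionVars false

open scoped Pointwise

namespace Pool.Agent.V1128.INV

open IsLocalRing Pool.Agent.TH188.QS Pool.Agent.TH188.ARC Pool.Agent.W418.LU2
  Pool.Agent.H918R2.Quad Pool.Agent.Y223.INV

section lr

variable {O F : Type} [CommRing O] [Field F] [Algebra O F]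

/-- The charts of a power. -/
lemma chart_pow_eq {M : Submodule O F} {g : F} (hg : g ∈ M) (hg0 : g ≠ 0) {k : ℕ} (hk : 1 ≤ k) :
    chart O (M ^ k) (g ^ k) = chart O M g := by
  apply le_antisymm
  · refine Algebra.adjoin_le ?_
    rintro _ ⟨m, hm, rfl⟩
    exact pow_div_mem hg0 k m hm
  · refine Algebra.adjoin_le ?_
    rintro _ ⟨m, hm, rfl⟩
    obtain ⟨l, rfl⟩ := Nat.exists_eq_add_of_le' hk
    refine Algebra.subset_adjoin ⟨m * g ^ l, ?_, ?_⟩
    · rw [pow_succ']
      exact Submodule.mul_mem_mul hm (Submodule.pow_mem_pow _ hg l)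
    · rw [pow_succ']
      field_simp

theorem lr_pow {M : Submodule O F} (hM : M.FG) (hne : ∃ g ∈ M, g ≠ 0) {W : ValuationSubring F}
    (hOW : ∀ o, algebraMap O F o ∈ W) {k : ℕ} (hk : 1 ≤ k) {Q : Subring F} (h : LR W (M ^ k) Q) :
    LR W M Q := by
  obtain ⟨Q', g, hg, hg0, hgW, hQ'⟩ := Pool.Agent.Y223.CC.exists_LR hOW hM hne
  have h1 : LR W (M ^ k) Q' := by
    refine ⟨g ^ k, Submodule.pow_mem_pow _ hg k, pow_ne_zero k hg0, ?_, ?_⟩
    · intro m hm
      exact chart_le_V hOW hgW (pow_div_mem hg0 k m hm)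
    · rw [chart_pow_eq hg hg0 hk, hQ']
  rw [h.unique hOW h1]
  exact ⟨g, hg, hg0, hgW, hQ'⟩

/-- From the primes of the charts to the valuations. -/
theorem lr_regular {M : Submodule O F}
    (hreg : ∀ f ∈ M, f ≠ 0 → ∀ (q : Ideal (chart O M f)) [q.IsPrime],
      IsRegularLocalRing (Localization.AtPrime q)) {W : ValuationSubring F}
    (hOW : ∀ o, algebraMap O F o ∈ W) {Q : Subring F} (h : LR W M Q) : IsRegularLocalRing Q := by
  obtain ⟨g, hg, hg0, hgW, rfl⟩ := h
  have hcW := chart_le_V hOW hgW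
  let φ : (chart O M g).toSubring →+* W :=
    (chart O M g).toSubring.subtype.codRestrict W fun x => hcW x.2
  let P : Ideal (chart O M g).toSubring := (maximalIdeal W).comap φ
  have hP : P.IsPrime := Ideal.comap_isPrime _ _
  have hPN : ∀ a : (chart O M g).toSubring, a ∈ P ↔ NU W.toSubring (a : F) := by
    intro a
    have h1 : a ∈ P ↔ φ a ∈ maximalIdeal W := Iff.rfl
    rw [h1, mem_maximalIdeal, mem_nonunits_iff, NU, not_iff_not]
    constructor
    · intro h
      obtain ⟨y, hy⟩ := isUnit_iff_exists_inv.1 h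
      have h2 : (a : F) * y = 1 := congrArg Subtype.val hy
      refine ⟨left_ne_zero_of_mul_eq_one h2, ?_⟩
      rw [← eq_inv_of_mul_eq_one_right h2]
      exact y.2
    · rintro ⟨h2, h3⟩
      exact isUnit_iff_exists_inv.2 ⟨⟨_, h3⟩, Subtype.ext (mul_inv_cancel₀ h2)⟩
  have hR := ofPrime_eq_lo hcW P hPN
  rw [← hR]
  have h5 : IsRegularLocalRing (Localization.AtPrime P) := @hreg g hg hg0 P hP
  exact IsRegularLocalRing.of_ringEquiv
    (LocalSubring.ofPrimeEquiv (chart O M g).toSubring P).toRingEquiv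

end lr

section cm

variable {O E F K : Type} [CommRing O] [IsDomain O] [Field E] [Algebra O E] [IsFractionRing O E]
  [Field F] [Field K] [Algebra O F] [Algebra E F] [IsScalarTower O E F] [Algebra O K] [Algebra E K]
  [IsScalarTower O E K] [Algebra F K] [IsScalarTower O F K] [IsScalarTower E F K]

/-- Commensurable modules in `K`. -/
structure Cs (P : Submodule E K) (L : Submodule O K) : Prop where
  le : ∀ y ∈ L, y ∈ P
  ge : ∀ y ∈ P, ∃ s : O, s ≠ 0 ∧ s • y ∈ L

theorem Cs.mul {P P' : Submodule E K} {L L' : Submodule O K} (h : Cs P L) (h' : Cs P' L') :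
    Cs (P * P') (L * L') := by
  constructor
  · intro y hy
    exact Submodule.mul_induction_on hy
      (fun a ha b hb => Submodule.mul_mem_mul (h.le a ha) (h'.le b hb))
      (fun a b ha hb => Submodule.add_mem _ ha hb)
  · intro y hy
    refine Submodule.mul_induction_on hy ?_ ?_
    · intro a ha b hb
      obtain ⟨s, hs, h1⟩ := h.ge a ha
      obtain ⟨t, ht, h2⟩ := h'.ge b hb
      refine ⟨s * t, mul_ne_zero hs ht, ?_⟩
      rw [← smul_mul_smul_comm]
      exact Submodule.mul_mem_mul h1 h2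
    · rintro a b ⟨s, hs, h1⟩ ⟨t, ht, h2⟩
      refine ⟨s * t, mul_ne_zero hs ht, ?_⟩
      rw [smul_add]
      refine Submodule.add_mem _ ?_ ?_
      · rw [mul_comm s t, mul_smul]
        exact Submodule.smul_mem _ _ h1
      · rw [mul_smul]
        exact Submodule.smul_mem _ _ h2

/-- The module `L` in `F` is commensurable with `w⁻¹ P`. -/
structure Cm (P : Submodule E K) (w : K) (L : Submodule O F) : Prop where
  le : ∀ f ∈ L, w * algebraMap F K f ∈ P
  ge : ∀ z ∈ P, ∃ (f : F) (s : O), s ≠ 0 ∧ w * algebraMap F K f = z ∧ s • f ∈ L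

theorem Cm.mul {P P' : Submodule E K} {w w' : K} {L L' : Submodule O F} (h : Cm P w L)
    (h' : Cm P' w' L') : Cm (P * P') (w * w') (L * L') := by
  constructor
  · intro y hy
    refine Submodule.mul_induction_on hy (fun a ha b hb => ?_) (fun a b ha hb => ?_)
    · have h1 : w * w' * algebraMap F K (a * b) =
          (w * algebraMap F K a) * (w' * algebraMap F K b) := by
        rw [map_mul]
        ring
      rw [h1]
      exact Submodule.mul_mem_mul (h.le a ha) (h'.le b hb)
    · rw [map_add, mul_add]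
      exact Submodule.add_mem _ ha hb
  · intro y hy
    refine Submodule.mul_induction_on hy ?_ ?_
    · intro a ha b hb
      obtain ⟨f, s, hs, h1, h2⟩ := h.ge a ha
      obtain ⟨g, t, ht, h3, h4⟩ := h'.ge b hb
      refine ⟨f * g, s * t, mul_ne_zero hs ht, ?_, ?_⟩
      · rw [← h1, ← h3, map_mul]
        ring
      · rw [← smul_mul_smul_comm]
        exact Submodule.mul_mem_mul h2 h4
    · rintro a b ⟨f, s, hs, h1, h2⟩ ⟨g, t, ht, h3, h4⟩
      refine ⟨f + g, s * t, mul_ne_zero hs ht, ?_, ?_⟩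
      · rw [← h1, ← h3, map_add, mul_add]
      · rw [smul_add]
        refine Submodule.add_mem _ ?_ ?_
        · rw [mul_comm s t, mul_smul]
          exact Submodule.smul_mem _ _ h2
        · rw [mul_smul]
          exact Submodule.smul_mem _ _ h4

theorem Cm.pow {P : Submodule E K} {w : K} {L : Submodule O F} (h : Cm P w L) {k : ℕ}
    (hk : 1 ≤ k) : Cm (P ^ k) (w ^ k) (L ^ k) := by
  induction k, hk using Nat.le_induction with
  | base => simpa only [pow_one] using h
  | succ k _ ih =>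
    rw [pow_succ, pow_succ, pow_succ]
    exact ih.mul h

/-- The action of `σ` is linear over the fractions. -/
lemma s_comm (σ : K ≃ₐ[O] K) (e : E) : σ (algebraMap E K e) = algebraMap E K e := by
  obtain ⟨r, s, hs, rfl⟩ := IsFractionRing.div_surjective (A := O) e
  rw [map_div₀, ← IsScalarTower.algebraMap_apply O E K, ← IsScalarTower.algebraMap_apply O E K,
    map_div₀, σ.commutes, σ.commutes]

/-- The action of `σ`, linear over the fractions. -/
noncomputable def ext (E : Type) [Field E] [Algebra O E] [IsFractionRing O E] [Algebra E K]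
    [IsScalarTower O E K] (σ : K ≃ₐ[O] K) : K ≃ₐ[E] K :=
  AlgEquiv.ofRingEquiv (f := σ.toRingEquiv) fun e => s_comm σ e

lemma ext_apply (σ : K ≃ₐ[O] K) (y : K) : ext E σ y = σ y := rfl

variable {σ : K ≃ₐ[O] K}

lemma cs_SM {P : Submodule E K} {L : Submodule O K} (hσ : ∀ y, σ (σ y) = y)
    (hP : ∀ y ∈ P, ext E σ y ∈ P) (h : Cs P L) : Cs P (SM σ L) := by
  constructor
  · rintro _ ⟨y, hy, rfl⟩
    exact hP y (h.le y hy)
  · intro y hy
    obtain ⟨s, hs, h1⟩ := h.ge _ (hP y hy)
    refine ⟨s, hs, _, h1, ?_⟩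
    change σ (s • σ y) = s • y
    rw [map_smul, hσ]

lemma cm_VF {P : Submodule E K} {L : Submodule O K}
    (hF : ∀ y, σ y = y ↔ ∃ f : F, algebraMap F K f = y) (h : Cs P (L * SM σ L)) :
    Cm (F := F) (Pl (ext E σ) P) 1 (VF F σ L) := by
  constructor
  · intro f hf
    rw [one_mul]
    exact ⟨h.le _ (mem_VF.1 hf), (hF _).2 ⟨f, rfl⟩⟩
  · rintro z ⟨hz, hz'⟩
    obtain ⟨f, rfl⟩ := (hF z).1 hz'
    obtain ⟨s, hs, h1⟩ := h.ge _ hz
    refine ⟨f, s, hs, one_mul _, mem_VF.2 ?_⟩
    rwa [← algebraMap_smul']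

lemma cm_WF [CharZero E] {P : Submodule E K} {L : Submodule O K} {w : K} (hσ : ∀ y, σ (σ y) = y)
    (hF : ∀ y, σ y = y ↔ ∃ f : F, algebraMap F K f = y) (hP : ∀ y ∈ P, ext E σ y ∈ P)
    (hw0 : w ≠ 0) (hw : σ w = - w) (h : Cs P L) :
    Cm (F := F) (Mn (ext E σ) (P * P)) w (WF F σ L w) := by
  have hc := h.mul (cs_SM hσ hP h)
  constructor
  · intro f hf
    have h1 := mem_WF.1 hf
    refine ⟨?_, ?_⟩
    · rw [mul_comm w]
      exact hc.le _ (wd_le h1)
    · rw [ext_apply, map_mul, hw, (hF _).2 ⟨f, rfl⟩, neg_mul]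
  · rintro z ⟨hz, hz'⟩
    rw [ext_apply] at hz'
    have key : ∀ y ∈ P * P, ∃ s : O, s ≠ 0 ∧ s • (y - σ y) ∈ WD σ L := by
      intro y hy
      refine Submodule.mul_induction_on hy ?_ ?_
      · intro c hc c' hc'
        obtain ⟨s, hs, h1⟩ := h.ge c hc
        obtain ⟨t, ht, h2⟩ := h.ge _ (hP c' hc')
        refine ⟨s * t, mul_ne_zero hs ht, ?_⟩
        have h3 := Submodule.neg_mem _ (wd_mem (σ := σ) h1 h2)
        have h4 : -wd σ (s • c) (t • (ext E σ c')) = (s * t) • (c * c' - σ (c * c')) := by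
          rw [wd, ext_apply, map_smul, map_smul, hσ, map_mul]
          simp only [Algebra.smul_def, map_mul]
          ring
        rwa [h4] at h3
      · rintro a b ⟨s, hs, h1⟩ ⟨t, ht, h2⟩
        refine ⟨s * t, mul_ne_zero hs ht, ?_⟩
        have h3 : a + b - σ (a + b) = (a - σ a) + (b - σ b) := by rw [map_add]; ring
        rw [h3, smul_add]
        refine Submodule.add_mem _ ?_ ?_
        · rw [mul_comm, mul_smul]
          exact Submodule.smul_mem _ _ h1
        · rw [mul_smul]
          exact Submodule.smul_mem _ _ h2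
    obtain ⟨s, hs, h1⟩ := key z hz
    obtain ⟨f, hf⟩ := (hF (z / w)).1 (by rw [map_div₀, hz', hw, neg_div_neg_eq])
    have h2 : (2 : O) ≠ 0 := by
      intro h2
      have h3 : (2 : E) = 0 := by
        rw [← map_ofNat (algebraMap O E) 2, h2, map_zero]
      exact two_ne_zero h3
    refine ⟨f, s * 2, mul_ne_zero hs h2, ?_, mem_WF.2 ?_⟩
    · rw [hf, mul_div_cancel₀ _ hw0]
    · rw [← algebraMap_smul', hf, smul_mul_assoc, div_mul_cancel₀ _ hw0, mul_smul]
      rw [hz', sub_neg_eq_add] at h1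
      rwa [ofNat_smul_eq_nsmul O 2 z, two_nsmul]

end cm

end Pool.Agent.V1128.INV
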