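import Pool.Agent.V1128.INV.Core

/-!
# Regular models of the quotients of projective varieties by involutions
-/

set_option autoImplicit false
set_option linter.unusedVariables false
set_option linter.unusedSectionVars false

open scoped Pointwise

open AlgebraicGeometry CategoryTheory CategoryTheory.Limits MvPolynomial NumberField

namespace Pool.Agent.V1128.INV

open IsLocalRing Pool.Agent.TH188.QS Pool.Agent.TH188.ARC Pool.Agent.W418.LU2
  Pool.Agent.H918R2.Quad Pool.Agent.Y223.INV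

section

variable {O E F K : Type} [CommRing O] [IsDomain O] [IsNoetherianRing O] [Field E] [CharZero E]
  [Algebra O E] [IsFractionRing O E]
  [Field F] [Field K] [Algebra O F] [Algebra E F] [IsScalarTower O E F] [Algebra O K] [Algebra E K]
  [IsScalarTower O E K] [Algebra F K] [IsScalarTower O F K] [IsScalarTower E F K]

/-- The good module of the quotient. -/
theorem good {ι ι' : Type} [Finite ι] [Nonempty ι] (x : ι' → F) (σ : K ≃ₐ[O] K)
    (hσ : ∀ y, σ (σ y) = y) (hF : ∀ y, σ y = y ↔ ∃ f : F, algebraMap F K f = y)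
    (H : ι → K) (hH : ∀ j, H j ≠ 0) (hreg : ∀ j, IsRegularRing (CR O H j))
    (hσH : ∀ j, σ (H j) ∈ Submodule.span O (Set.range H))
    (hne : ∃ i j, σ (H i / H j) ≠ H i / H j)
    (I : Submodule O K) (hI : I ≤ Submodule.span O (Set.range H)) {s₀ : O} (hs₀ : s₀ ≠ 0)
    (hs₀I : ∀ y ∈ Submodule.span O (Set.range H), s₀ • y ∈ I) (hσI : ∀ x ∈ I, σ x ∈ I)
    (hpt : ∀ j (𝔮 : Ideal (CR O H j)) [𝔮.IsPrime], PC σ (LocalSubring.ofPrime (CR O H j) 𝔮).toSubring
      (IA I (H j) (LocalSubring.ofPrime (CR O H j) 𝔮).toSubring))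
    {D k : ℕ} (hD : 1 ≤ D) (hk : 1 ≤ k) (ω : K)
    (hx : ∀ z : K, z ∈ (Mn (ext E σ) ((Submodule.span E (Set.range H)) ^ 8)) ^ k ↔
      ∃ y ∈ (Submodule.span E (Set.range x)) ^ D, z = ω * algebraMap F K y) :
    Pool.Agent.W418.GoodModule O x := by
  classical
  set M := Submodule.span O (Set.range H) with hM
  set N := Submodule.span E (Set.range H) with hN
  have hOK : Function.Injective (algebraMap O K) := by
    rw [IsScalarTower.algebraMap_eq O E K]
    exact (algebraMap E K).injective.comp (IsFractionRing.injective O E)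
  have hHM : ∀ j, H j ∈ M := fun j => Submodule.subset_span ⟨j, rfl⟩
  have hσM : ∀ y ∈ M, σ y ∈ M := by
    intro y hy
    induction hy using Submodule.span_induction with
    | mem y hy =>
      obtain ⟨l, rfl⟩ := hy
      exact hσH l
    | zero => rw [map_zero]; exact Submodule.zero_mem _
    | add a b _ _ ha hb => rw [map_add]; exact Submodule.add_mem _ ha hb
    | smul r a _ ha => rw [map_smul]; exact Submodule.smul_mem _ r ha
  have hcM : Cs N M := by
    constructor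
    · intro y hy
      exact Submodule.span_subset_span O E _ hy
    · exact fun y hy => Pool.Agent.W418.exists_smul_span (O := O) (K := E) (Set.range H) y hy
  have hcI : Cs N I := by
    refine ⟨fun y hy => hcM.le y (hI hy), fun y hy => ?_⟩
    obtain ⟨s, hs, h1⟩ := hcM.ge y hy
    exact ⟨s₀ * s, mul_ne_zero hs₀ hs, by rw [mul_smul]; exact hs₀I _ h1⟩
  have hsN : ∀ y ∈ N, ext E σ y ∈ N := by
    intro y hy
    rw [ext_apply]
    obtain ⟨s, hs, h1⟩ := hcM.ge y hy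
    have h2 := hcM.le _ (hσM _ h1)
    rw [map_smul, ← algebraMap_smul E s (σ y)] at h2
    have h3 : algebraMap O E s ≠ 0 := fun h => hs (IsFractionRing.injective O E (by rw [h, map_zero]))
    have h4 := Submodule.smul_mem _ (algebraMap O E s)⁻¹ h2
    rwa [smul_smul, inv_mul_cancel₀ h3, one_smul] at h4
  have hs2 : ∀ y, ext E σ (ext E σ y) = y := hσ
  have hcMI : Cs (N * N) (M * I) := hcM.mul hcI
  have hsNN : ∀ y ∈ N * N, ext E σ y ∈ N * N := by
    have := pow_stable hsN 2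
    rwa [pow_two] at this
  -- a nonzero element
  obtain ⟨j₀⟩ := (inferInstance : Nonempty ι)
  have hne' : ∃ y ∈ M, σ (y / H j₀) ≠ y / H j₀ := by
    by_contra hcon
    push Not at hcon
    obtain ⟨i, j, hij⟩ := hne
    apply hij
    have h2 : H i / H j = (H i / H j₀) / (H j / H j₀) := by
      have := hH j
      have := hH j₀
      field_simp
    rw [h2, map_div₀, hcon _ (hHM i), hcon _ (hHM j)]
  have hI0 : I ≠ ⊥ := by
    rw [Ne, Submodule.eq_bot_iff]
    intro h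
    have h3 := h _ (hs₀I _ (Submodule.subset_span ⟨j₀, rfl⟩))
    rw [Algebra.smul_def] at h3
    rcases mul_eq_zero.1 h3 with h4 | h4
    · exact hs₀ (hOK (by rw [h4, map_zero]))
    · exact hH j₀ h4
  obtain ⟨c, hcI', hc0⟩ := I.ne_bot_iff.1 hI0
  obtain ⟨a, ha, haσ⟩ := hne'
  have hv : a * c ∈ M * I := Submodule.mul_mem_mul ha hcI'
  have hu : H j₀ * c ∈ M * I := Submodule.mul_mem_mul (hHM j₀) hcI'
  set w := wd σ (a * c) (H j₀ * c) with hw
  have hw0 : w ≠ 0 := by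
    have h1 : w = (c * σ c) * (σ a * H j₀ - a * σ (H j₀)) := by
      rw [hw, wd, map_mul, map_mul]
      ring
    rw [h1]
    refine mul_ne_zero (mul_ne_zero hc0 fun h => hc0 ((map_eq_zero σ).1 h)) ?_
    intro h
    apply haσ
    have h2 : σ (H j₀) ≠ 0 := fun h => hH j₀ ((map_eq_zero σ).1 h)
    rw [map_div₀, div_eq_div_iff h2 (hH j₀)]
    exact sub_eq_zero.1 h
  have hwσ : σ w = - w := s_wd hσ _ _
  obtain ⟨hfg, h0, hregq⟩ := inv_quot_H (F := F) H hH hreg j₀ σ hσ ⟨a, ha, haσ⟩ hσH I hI hI0 hσI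
    hpt hF _ hv _ hu hw0
  set Mq := VF F σ (M * I) * WF F σ (M * I) w with hMq
  -- the comparison
  have hcm : Cm (Mn (ext E σ) (N ^ 8)) w Mq := by
    have h1 := (cm_VF (F := F) hF (hcMI.mul (cs_SM hσ hsNN hcMI))).mul
      (cm_WF (F := F) hσ hF hsNN hw0 hwσ hcMI)
    have h2 : Pl (ext E σ) (N * N * (N * N)) * Mn (ext E σ) (N * N * (N * N)) =
        Mn (ext E σ) (N ^ 8) := by
      rw [← mn_sq hs2]
      · congr 1
        ring
      · have := pow_stable hsN 4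
        have h3 : N ^ 4 = N * N * (N * N) := by ring
        rwa [h3] at this
    rwa [h2, one_mul] at h1
  have hcmk := hcm.pow hk
  obtain ⟨f₀, hf₀, hf₀0⟩ := h0
  have hf₀k : f₀ ^ k ∈ Mq ^ k := Submodule.pow_mem_pow _ hf₀ k
  have hf₀k0 : f₀ ^ k ≠ 0 := pow_ne_zero k hf₀0
  obtain ⟨y₀, hy₀, hωy⟩ := (hx _).1 (hcmk.le _ hf₀k)
  have hwk : w ^ k ≠ 0 := pow_ne_zero k hw0
  have hfK : algebraMap F K (f₀ ^ k) ≠ 0 := fun h => hf₀k0 ((map_eq_zero _).1 h)
  have hz0 : ω * algebraMap F K y₀ ≠ 0 := by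
    rw [← hωy]
    exact mul_ne_zero hwk hfK
  have hω0 : ω ≠ 0 := left_ne_zero_of_mul hz0
  have hy₀0 : y₀ ≠ 0 := by
    rintro rfl
    rw [map_zero, mul_zero] at hz0
    exact hz0 rfl
  have hω' : y₀ / f₀ ^ k ≠ 0 := div_ne_zero hy₀0 hf₀k0
  have hωeq : w ^ k = ω * algebraMap F K (y₀ / f₀ ^ k) := by
    rw [map_div₀, ← mul_div_assoc, ← hωy, mul_div_cancel_right₀ _ hfK]
  refine goodModule_of (E := E) (D := D) hD (hfg.pow k) ⟨_, hf₀k, hf₀k0⟩ hω' ?_ ?_ ?_
  · intro f hf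
    obtain ⟨y, hy, h1⟩ := (hx _).1 (hcmk.le _ hf)
    have h2 : y₀ / f₀ ^ k * f = y := by
      apply (algebraMap F K).injective
      apply mul_left_cancel₀ hω0
      rw [map_mul, ← mul_assoc, ← hωeq, h1]
    rw [h2, ← Submodule.span_pow]
    exact hy
  · intro n hn
    rw [← Submodule.span_pow] at hn
    obtain ⟨f, s, hs, h1, h2⟩ := hcmk.ge _ ((hx _).2 ⟨n, hn, rfl⟩)
    refine ⟨s, hs, ?_⟩
    have h3 : n / (y₀ / f₀ ^ k) = f := by
      rw [div_eq_iff hω']
      apply (algebraMap F K).injective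
      apply mul_left_cancel₀ hω0
      rw [← h1, hωeq, map_mul]
      ring
    rwa [h3]
  · intro f hf hf0 q hq
    refine Pool.Agent.Y223.CC.chart_regular (fun W hOW Q hQ => ?_) f hf hf0 q
    exact lr_regular hregq hOW (lr_pow hfg ⟨f₀, hf₀, hf₀0⟩ hOW hk hQ)

/-- The quotient by an involution without fixed points on the generic fibre. -/
theorem good_free {ι ι' : Type} [Finite ι] [Nonempty ι] (x : ι' → F) (σ : K ≃ₐ[O] K)
    (hσ : ∀ y, σ (σ y) = y) (hF : ∀ y, σ y = y ↔ ∃ f : F, algebraMap F K f = y)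
    (H : ι → K) (hH : ∀ j, H j ≠ 0) (hreg : ∀ j, IsRegularRing (CR O H j))
    (hσH : ∀ j, σ (H j) ∈ Submodule.span O (Set.range H))
    (hne : ∃ i j, σ (H i / H j) ≠ H i / H j)
    (I : Submodule O K) (hI : I ≤ Submodule.span O (Set.range H)) {s₀ : O} (hs₀ : s₀ ≠ 0)
    (hs₀I : ∀ y ∈ Submodule.span O (Set.range H), s₀ • y ∈ I) (hσI : ∀ x ∈ I, σ x ∈ I)
    (hpt : ∀ j (𝔮 : Ideal (CR O H j)) [𝔮.IsPrime], PC σ (LocalSubring.ofPrime (CR O H j) 𝔮).toSubring
      (IA I (H j) (LocalSubring.ofPrime (CR O H j) 𝔮).toSubring))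
    {n : ℕ} (hn : (Submodule.span E (Set.range H)) ^ (n + 2) ≤ (Submodule.span E (Set.range H)) ^ n *
      (Pl (ext E σ) (Submodule.span E (Set.range H)) * Mn (ext E σ) (Submodule.span E (Set.range H))))
    {m : ℕ} (hm : 1 ≤ m)
    (hx : ∀ (d : ℕ) (z : K), z ∈ Pl (ext E σ) ((Submodule.span E (Set.range H)) ^ (m * d)) ↔
      ∃ y ∈ (Submodule.span E (Set.range x)) ^ d, z = algebraMap F K y) :
    Pool.Agent.W418.GoodModule O x := by
  have hsN : ∀ y ∈ Submodule.span E (Set.range H), ext E σ y ∈ Submodule.span E (Set.range H) := by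
    intro y hy
    induction hy using Submodule.span_induction with
    | mem y hy =>
      obtain ⟨l, rfl⟩ := hy
      exact Submodule.span_subset_span O E _ (hσH l)
    | zero => rw [map_zero]; exact Submodule.zero_mem _
    | add a b _ _ ha hb => rw [map_add]; exact Submodule.add_mem _ ha hb
    | smul r a _ ha => rw [map_smul]; exact Submodule.smul_mem _ r ha
  have hs2 : ∀ y, ext E σ (ext E σ y) = y := hσ
  have h1 := free_eq hs2 hsN hn (t := m * (n + 1)) (by nlinarith)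
  refine good (E := E) x σ hσ hF H hH hreg hσH hne I hI hs₀ hs₀I hσI hpt
    (D := 16 * (n + 1)) (k := 2 * (m * (n + 1))) (by omega)
    (by have h9 : 0 < m * (n + 1) := Nat.mul_pos hm (Nat.succ_pos n)
        omega) 1 ?_
  intro z
  have h2 : 16 * (m * (n + 1)) = m * (16 * (n + 1)) := by ring
  rw [h1, h2, hx]
  simp only [one_mul]

end

lemma span_pl {E O K : Type} [CommRing O] [IsDomain O] [Field E] [Algebra O E] [IsFractionRing O E]
    [Field K] [Algebra O K] [Algebra E K] [IsScalarTower O E K] (σ : K ≃ₐ[O] K)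
    (L : Submodule E K) : Submodule.span E {y | y ∈ L ∧ σ y = y} = Pl (ext E σ) L :=
  Submodule.span_eq (Pl (ext E σ) L)

lemma span_mn {E O K : Type} [CommRing O] [IsDomain O] [Field E] [Algebra O E] [IsFractionRing O E]
    [Field K] [Algebra O K] [Algebra E K] [IsScalarTower O E K] (σ : K ≃ₐ[O] K)
    (L : Submodule E K) : Submodule.span E {y | y ∈ L ∧ σ y = -y} = Mn (ext E σ) L :=
  Submodule.span_eq (Mn (ext E σ) L)

lemma mem_pow_iff {E F : Type} [Field E] [Field F] [Algebra E F] {n : ℕ} (x : Fin (n + 1) → F)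
    (d : ℕ) (y : F) : y ∈ Submodule.span E (Set.range x) ^ d ↔
      ∃ P : MvPolynomial (Fin (n + 1)) E, P.IsHomogeneous d ∧ aeval x P = y := by
  have hpow : (homogeneousSubmodule (Fin (n + 1)) E d).map (aeval x).toLinearMap =
      Submodule.span E (Set.range x) ^ d := by
    rw [← homogeneousSubmodule_one_pow, Submodule.map_pow, homogeneousSubmodule_one_eq_span_X,
      Submodule.map_span, ← Set.range_comp]
    congr 3
    funext j
    simp
  rw [← hpow]
  constructor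
  · rintro ⟨P, hP, rfl⟩
    exact ⟨P, hP, rfl⟩
  · rintro ⟨P, hP, rfl⟩
    exact ⟨P, hP, rfl⟩

section

variable {E F K A : Type} [Field E] [NumberField E] [Field F] [Algebra E F] [Field K] [Algebra F K]
  [Algebra E K] [IsScalarTower E F K] [Algebra (𝓞 E) K] [IsScalarTower (𝓞 E) E K]

theorem good_of {n N : ℕ} (x : Fin (n + 1) → F) (σ : K ≃ₐ[𝓞 E] K)
    (hσ : ∀ y, σ (σ y) = y) (hF : ∀ y, σ y = y ↔ ∃ f : F, algebraMap F K f = y)
    (H : Fin (N + 1) → K) (hH : ∀ j, H j ≠ 0) (hreg : ∀ j, IsRegularRing (CR (𝓞 E) H j))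
    (hσH : ∀ j, σ (H j) ∈ Submodule.span (𝓞 E) (Set.range H))
    (hne : ∃ i j, σ (H i / H j) ≠ H i / H j)
    (I : Submodule (𝓞 E) K) (hI : I ≤ Submodule.span (𝓞 E) (Set.range H)) {s₀ : 𝓞 E} (hs₀ : s₀ ≠ 0)
    (hs₀I : ∀ y ∈ Submodule.span (𝓞 E) (Set.range H), s₀ • y ∈ I) (hσI : ∀ x ∈ I, σ x ∈ I)
    (hpt : ∀ j (𝔮 : Ideal (CR (𝓞 E) H j)) [𝔮.IsPrime],
      PC σ (LocalSubring.ofPrime (CR (𝓞 E) H j) 𝔮).toSubring
        (IA I (H j) (LocalSubring.ofPrime (CR (𝓞 E) H j) 𝔮).toSubring))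
    (hV : (∃ (D k : ℕ) (ω : K), 1 ≤ D ∧ 1 ≤ k ∧ ∀ z : K,
        z ∈ Submodule.span E {y | y ∈ Submodule.span E (Set.range H) ^ 8 ∧ σ y = -y} ^ k ↔
        ∃ P : MvPolynomial (Fin (n + 1)) E, P.IsHomogeneous D ∧
          z = ω * algebraMap F K (aeval x P)) ∨
      ((∃ r : ℕ, Submodule.span E (Set.range H) ^ (r + 2) ≤ Submodule.span E (Set.range H) ^ r *
        (Submodule.span E {y | y ∈ Submodule.span E (Set.range H) ^ 1 ∧ σ y = y} *
          Submodule.span E {y | y ∈ Submodule.span E (Set.range H) ^ 1 ∧ σ y = -y})) ∧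
        ∃ m : ℕ, 1 ≤ m ∧ ∀ (d : ℕ) (z : K),
          z ∈ Submodule.span E {y | y ∈ Submodule.span E (Set.range H) ^ (m * d) ∧ σ y = y} ↔
          ∃ P : MvPolynomial (Fin (n + 1)) E, P.IsHomogeneous d ∧
            z = algebraMap F K (aeval x P)))
    [Algebra (𝓞 E) F] [IsScalarTower (𝓞 E) E F] : Pool.Agent.W418.GoodModule (𝓞 E) x := by
  have h3 : IsScalarTower (𝓞 E) F K := IsScalarTower.of_algebraMap_eq fun a => by
    rw [IsScalarTower.algebraMap_apply (𝓞 E) E K, IsScalarTower.algebraMap_apply E F K,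
      IsScalarTower.algebraMap_apply (𝓞 E) E F]
  simp only [span_pl, span_mn] at hV
  rcases hV with ⟨D, k, ω, hD, hk, h⟩ | ⟨⟨r, hr⟩, m, hm, h⟩
  · refine good (E := E) x σ hσ hF H hH hreg hσH hne I hI hs₀ hs₀I hσI hpt hD hk ω ?_
    intro z
    rw [h]
    constructor
    · rintro ⟨P, hP, rfl⟩
      exact ⟨_, (mem_pow_iff x D _).2 ⟨P, hP, rfl⟩, rfl⟩
    · rintro ⟨y, hy, rfl⟩
      obtain ⟨P, hP, rfl⟩ := (mem_pow_iff x D _).1 hy
      exact ⟨P, hP, rfl⟩
  · rw [pow_one] at hr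
    refine good_free (E := E) x σ hσ hF H hH hreg hσH hne I hI hs₀ hs₀I hσI hpt hr hm ?_
    intro d z
    rw [h]
    constructor
    · rintro ⟨P, hP, rfl⟩
      exact ⟨_, (mem_pow_iff x d _).2 ⟨P, hP, rfl⟩, rfl⟩
    · rintro ⟨y, hy, rfl⟩
      obtain ⟨P, hP, rfl⟩ := (mem_pow_iff x d _).1 hy
      exact ⟨P, hP, rfl⟩

end

section

open Pool.Agent.TH214.RM Pool.Agent.W418

variable {E F K A : Type} [Field E] [NumberField E] [Field F] [Algebra E F] [Field K] [Algebra F K]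
  [Algebra E K] [IsScalarTower E F K] [Algebra (𝓞 E) K] [IsScalarTower (𝓞 E) E K] [CommRing A]
  [Algebra E A]

theorem model_O {n : ℕ} (x : Fin (n + 1) → F)
    (π : MvPolynomial (Fin (n + 1)) E →ₐ[E] A)
    (hπ : Function.Surjective π) (𝒜 : ℕ → Submodule E A) [GradedAlgebra 𝒜]
    (h𝒜 : ∀ d, 𝒜 d = (homogeneousSubmodule (Fin (n + 1)) E d).map π.toLinearMap)
    (hx : ∀ d, ∀ P ∈ homogeneousSubmodule (Fin (n + 1)) E d, π P = 0 ↔ aeval x P = 0)
    (hM : ∀ [Algebra (𝓞 E) F] [IsScalarTower (𝓞 E) E F], Pool.Agent.W418.GoodModule (𝓞 E) x)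
    {Y : Scheme.{0}} (f : Y ⟶ Spec (CommRingCat.of E)) (i : Y ≅ Proj 𝒜)
    (hi : i.hom ≫ GO.projStr 𝒜 = f) : GO.HasModel (𝓞 E) E f := by
  let _ : Algebra (𝓞 E) F := ((algebraMap E F).comp (algebraMap (𝓞 E) E)).toAlgebra
  have hst : IsScalarTower (𝓞 E) E F := IsScalarTower.of_algebraMap_eq fun _ => rfl
  obtain ⟨ε, hε, hεgen, hε1⟩ := exists_eps2 x π hπ 𝒜 h𝒜 hx
  exact hasModel_of_goodModule (O := 𝓞 E) 𝒜 ε hε hεgen x hε1 hM f i hi

theorem model_Z {n : ℕ} (x : Fin (n + 1) → F)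
    (π : MvPolynomial (Fin (n + 1)) E →ₐ[E] A)
    (hπ : Function.Surjective π) (𝒜 : ℕ → Submodule E A) [GradedAlgebra 𝒜]
    (h𝒜 : ∀ d, 𝒜 d = (homogeneousSubmodule (Fin (n + 1)) E d).map π.toLinearMap)
    (hx : ∀ d, ∀ P ∈ homogeneousSubmodule (Fin (n + 1)) E d, π P = 0 ↔ aeval x P = 0)
    (hM : ∀ [Algebra (𝓞 E) F] [IsScalarTower (𝓞 E) E F], Pool.Agent.W418.GoodModule (𝓞 E) x)
    (Y : Scheme.{0}) (hY : Nonempty (Y ≅ Proj 𝒜)) : HasRegularModel Y := by
  let _ : Algebra (𝓞 E) F := ((algebraMap E F).comp (algebraMap (𝓞 E) E)).toAlgebra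
  have hst : IsScalarTower (𝓞 E) E F := IsScalarTower.of_algebraMap_eq fun _ => rfl
  obtain ⟨ε, hε, hεgen, hε1⟩ := exists_eps2 x π hπ 𝒜 h𝒜 hx
  exact hasRegularModel_of_goodModule (O := 𝓞 E) 𝒜 ε hε hεgen x hε1 hM Y hY

end

end Pool.Agent.V1128.INV
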