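import Pool.Agent.V1128.INV.Core
import Pool.Agent.TH188.ARC.A6

/-!
# Local uniformization of the quotients of regular rings by involutions
-/

set_option autoImplicit false
set_option linter.unusedVariables false
set_option linter.unusedSectionVars false

namespace Pool.Agent.V1128.INV

open IsLocalRing Pool.Agent.TH188.QS Pool.Agent.TH188.ARC Pool.Agent.W418.LU2
  Pool.Agent.H918R2.Quad Pool.Agent.Y223.INV

lemma chart_fg {O F : Type} [CommRing O] [Field F] [Algebra O F] {M : Submodule O F} (hM : M.FG)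
    (g : F) : (chart O M g).FG := by
  obtain ⟨s, hs⟩ := hM
  have h1 : chart O M g = Algebra.adjoin O ((fun m => m / g) '' (s : Set F)) := by
    apply le_antisymm
    · refine Algebra.adjoin_le ?_
      rintro _ ⟨m, hm, rfl⟩
      change m / g ∈ Algebra.adjoin O ((fun m => m / g) '' (s : Set F))
      rw [← hs] at hm
      induction hm using Submodule.span_induction with
      | mem m hm => exact Algebra.subset_adjoin ⟨m, hm, rfl⟩
      | zero => rw [zero_div]; exact Subalgebra.zero_mem _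
      | add a b _ _ ha hb => rw [add_div]; exact Subalgebra.add_mem _ ha hb
      | smul c a _ ha => rw [smul_div_assoc]; exact Subalgebra.smul_mem _ ha c
    · refine Algebra.adjoin_mono ?_
      rintro _ ⟨m, hm, rfl⟩
      exact ⟨m, hs ▸ Submodule.subset_span hm, rfl⟩
  rw [h1]
  exact Subalgebra.fg_def.2 ⟨_, s.finite_toSet.image _, rfl⟩

variable {R K : Type} [CommRing R] [IsDomain R] [IsNoetherianRing R] [Field K] [Algebra R K]

/-- The ideal as a module. -/
def Im (A : Subalgebra R K) (I : Ideal A) : Submodule R K where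
  carrier := {y | ∃ a ∈ I, (a : K) = y}
  add_mem' := by
    rintro _ _ ⟨a, ha, rfl⟩ ⟨b, hb, rfl⟩
    exact ⟨a + b, I.add_mem ha hb, rfl⟩
  zero_mem' := ⟨0, I.zero_mem, rfl⟩
  smul_mem' := by
    rintro c _ ⟨a, ha, rfl⟩
    exact ⟨algebraMap R A c * a, I.mul_mem_left _ ha, by rw [Algebra.smul_def]; rfl⟩

/-- The local ring at a prime. -/
noncomputable abbrev Lc (A : Subalgebra R K) (q : Ideal A.toSubring) [q.IsPrime] : Subring K :=
  (LocalSubring.ofPrime A.toSubring q).toSubring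

/-- The ideal of the centre in the local ring. -/
def Ct (A : Subalgebra R K) (I : Ideal A) (Q : Subring K) : Ideal Q :=
  Ideal.span {y : Q | ∃ n ∈ I, (y : K) = ((n : A) : K)}

theorem inv_lu (hinj : Function.Injective (algebraMap R K)) (A : Subalgebra R K)
    (hAfg : (Subalgebra.toSubmodule A).FG) (hAreg : IsRegularRing A.toSubring)
    (hK : ∀ x : K, ∃ a ∈ A, ∃ b ∈ A, b ≠ 0 ∧ x * b = a)
    (σ : K ≃ₐ[R] K) (hσ : ∀ y, σ (σ y) = y) (hσA : ∀ a ∈ A, σ a ∈ A) (hσ1 : ∃ a ∈ A, σ a ≠ a)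
    (hR : ∀ x ∈ A, σ x = x → ∃ r : R, algebraMap R K r = x)
    (I : Ideal A) (hI0 : I ≠ ⊥)
    (hσI : ∀ a ∈ I, ∃ b ∈ I, ((b : A) : K) = σ ((a : A) : K))
    (hpt : ∀ (q : Ideal A.toSubring) [q.IsPrime],
      (Ct A I (Lc A q) = ⊤ ∨ IsRegularLocalRing (Lc A q ⧸ Ct A I (Lc A q))) ∧
      (¬ IsUnit (2 : Lc A q) → IsFixed σ (Lc A q) →
        (Ct A I (Lc A q) = ⊤ → RegularWild σ (Lc A q)) ∧
        (Ct A I (Lc A q) ≠ ⊤ → NondegenerateWild σ (Lc A q) (Ct A I (Lc A q)))))
    (F : Type) [Field F] [Algebra R F] [IsFractionRing R F] (V : ValuationSubring F)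
    (hV : ∀ r : R, algebraMap R F r ∈ V) :
    ∃ C : Subalgebra R F, C.FG ∧ (∀ a : C, (a : F) ∈ V) ∧
      ∃ Q : Ideal C, ∃ (_ : Q.IsPrime), (∀ a : C, a ∈ Q ↔ V.valuation (a : F) < 1) ∧
        IsRegularLocalRing (Localization.AtPrime Q) := by
  classical
  let _ : Algebra F K := (IsFractionRing.lift (A := R) (K := F) hinj : F →+* K).toAlgebra
  have hst : IsScalarTower R F K := IsScalarTower.of_algebraMap_eq fun r =>
    (IsFractionRing.lift_algebraMap hinj r).symm
  have hF : ∀ x, σ x = x ↔ ∃ f : F, algebraMap F K f = x := by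
    intro x
    constructor
    · intro hx
      obtain ⟨a, ha, b, hb, hb0, hab⟩ := hK x
      obtain ⟨s, hs⟩ := hR (b * σ b) (A.mul_mem hb (hσA _ hb)) (by rw [map_mul, hσ, mul_comm])
      obtain ⟨r, hr⟩ := hR (a * σ b) (A.mul_mem ha (hσA _ hb)) (by
        rw [← hab, map_mul, map_mul, hσ, hx]
        ring)
      have hsb : σ b ≠ 0 := fun h => hb0 ((map_eq_zero σ).1 h)
      have hs0 : algebraMap R K s ≠ 0 := by
        rw [hs]
        exact mul_ne_zero hb0 hsb
      refine ⟨algebraMap R F r / algebraMap R F s, ?_⟩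
      rw [map_div₀, ← IsScalarTower.algebraMap_apply, ← IsScalarTower.algebraMap_apply,
        div_eq_iff hs0, hr, hs, ← hab]
      ring
    · rintro ⟨f, rfl⟩
      obtain ⟨r, s, hs, rfl⟩ := IsFractionRing.div_surjective (A := R) f
      rw [map_div₀, ← IsScalarTower.algebraMap_apply, ← IsScalarTower.algebraMap_apply, map_div₀,
        σ.commutes, σ.commutes]
  set M : Submodule R K := Subalgebra.toSubmodule A with hM
  have hsM : ∀ x ∈ M, σ x ∈ M := fun x hx => hσA x hx
  have hIM : Im A I ≤ M := by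
    rintro _ ⟨a, -, rfl⟩
    exact a.2
  have hIfg : (Im A I).FG := fg_of_le hIM hAfg
  have hsI : ∀ x ∈ Im A I, σ x ∈ Im A I := by
    rintro _ ⟨a, ha, rfl⟩
    exact hσI a ha
  obtain ⟨a₀, ha₀, ha₀0⟩ := I.ne_bot_iff.1 hI0
  have hI0' : ∃ a ∈ Im A I, a ≠ 0 := ⟨a₀, ⟨a₀, ha₀, rfl⟩, fun h => ha₀0 (Subtype.ext h)⟩
  have h1M : (1 : K) ∈ M := A.one_mem
  have hchart : (chart R M 1).toSubring = A.toSubring := by
    apply le_antisymm
    · have : chart R M 1 ≤ A := Algebra.adjoin_le (by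
        rintro _ ⟨m, hm, rfl⟩
        change m / 1 ∈ A
        rw [div_one]
        exact hm)
      exact this
    · intro x hx
      exact Algebra.subset_adjoin ⟨x, hx, (div_one x).symm⟩
  have hcond : ∀ W : ValuationSubring K, (∀ o, algebraMap R K o ∈ W) →
      ∃ m ∈ M, m ≠ 0 ∧ (∀ x ∈ M, x / m ∈ W) ∧
        Cond σ (Im A I) W (lo W.toSubring (chart R M m).toSubring) m := by
    intro W hOW
    have hAW : A.toSubring ≤ W.toSubring := by
      intro a ha
      by_contra hcon
      have h1 : (a : K) + σ a ∈ W := by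
        obtain ⟨r, hr⟩ := hR (a + σ a) (A.add_mem ha (hσA _ ha)) (by rw [map_add, hσ, add_comm])
        rw [← hr]
        exact hOW r
      have h2 : (a : K) * σ a ∈ W := by
        obtain ⟨r, hr⟩ := hR (a * σ a) (A.mul_mem ha (hσA _ ha)) (by rw [map_mul, hσ, mul_comm])
        rw [← hr]
        exact hOW r
      have h3 : a⁻¹ ∈ W := (W.mem_or_inv_mem a).resolve_left hcon
      have ha0 : a ≠ 0 := fun h => hcon (h ▸ W.zero_mem)
      have h4 : a = (a + σ a) - (a * σ a) * a⁻¹ := by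
        field_simp
        ring
      apply hcon
      change a ∈ W
      rw [h4]
      exact W.sub_mem h1 (W.mul_mem _ _ h2 h3)
    refine ⟨1, h1M, one_ne_zero, fun x hx => ?_, ?_⟩
    · rw [div_one]
      exact hAW hx
    rw [hchart]
    let φ : A.toSubring →+* W := A.toSubring.subtype.codRestrict W fun x => hAW x.2
    let P : Ideal A.toSubring := (maximalIdeal W).comap φ
    have hP : P.IsPrime := Ideal.comap_isPrime _ _
    have hPN : ∀ a : A.toSubring, a ∈ P ↔ NU W.toSubring (a : K) := by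
      intro a
      have h1 : a ∈ P ↔ φ a ∈ maximalIdeal W := Iff.rfl
      rw [h1, mem_maximalIdeal, mem_nonunits_iff, NU, not_iff_not]
      constructor
      · intro h
        obtain ⟨y, hy⟩ := isUnit_iff_exists_inv.1 h
        have h2 : (a : K) * y = 1 := congrArg Subtype.val hy
        refine ⟨left_ne_zero_of_mul_eq_one h2, ?_⟩
        rw [← eq_inv_of_mul_eq_one_right h2]
        exact y.2
      · rintro ⟨h2, h3⟩
        exact isUnit_iff_exists_inv.2 ⟨⟨_, h3⟩, Subtype.ext (mul_inv_cancel₀ h2)⟩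
    have hR' := ofPrime_eq_lo hAW P hPN
    have hpt' := hpt P
    have hregR : IsRegularLocalRing (LocalSubring.ofPrime A.toSubring P).toSubring := by
      have h5 : IsRegularLocalRing (Localization.AtPrime P) := inferInstance
      exact IsRegularLocalRing.of_ringEquiv (LocalSubring.ofPrimeEquiv A.toSubring P).toRingEquiv
    unfold Lc at hpt'
    rw [hR'] at hpt' hregR
    obtain ⟨hZ, hfix⟩ := hpt'
    have hQW : lo W.toSubring A.toSubring ≤ W.toSubring := lo_le hAW
    have hctr : Ct A I (lo W.toSubring A.toSubring) =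
        Ideal.span {y : lo W.toSubring A.toSubring | ∃ n ∈ Im A I, (y : K) = n / 1} := by
      unfold Ct
      congr 1
      ext y
      constructor
      · rintro ⟨n, hn, h⟩
        exact ⟨n, ⟨n, hn, rfl⟩, by rw [div_one, h]⟩
      · rintro ⟨_, ⟨n, hn, rfl⟩, h⟩
        exact ⟨n, hn, by rw [h, div_one]⟩
    refine cond_of hQW (ic_lo hAW) hregR ?_ hI0' one_ne_zero hctr hσ ?_ hZ
      (fun h1 h2 => (hfix h1 h2).1) (fun h1 h2 => (hfix h1 h2).2)
    · rintro _ ⟨n, hn, rfl⟩
      rw [div_one]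
      exact le_lo _ _ n.2
    · obtain ⟨a, ha, haσ⟩ := hσ1
      exact ⟨a, le_lo _ _ ha, haσ⟩
  have hquot := inv_quot (F := F) σ hσ hF hAfg hIfg hsM hsI hIM hI0' hcond
  -- a nonzero antisymmetric element
  obtain ⟨a, ha, haσ⟩ := hσ1
  have hc0 : (a₀ : K) ≠ 0 := fun h => ha₀0 (Subtype.ext h)
  have hcI : (a₀ : K) ∈ Im A I := ⟨a₀, ha₀, rfl⟩
  have hv : a * (a₀ : K) ∈ M * Im A I := Submodule.mul_mem_mul ha hcI
  have hu : 1 * (a₀ : K) ∈ M * Im A I := Submodule.mul_mem_mul h1M hcI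
  set w := wd σ (a * (a₀ : K)) (1 * (a₀ : K)) with hw
  have hw0 : w ≠ 0 := by
    have h1 : w = ((a₀ : K) * σ (a₀ : K)) * (σ a - a) := by
      rw [hw, wd, map_mul, map_mul, map_one]
      ring
    rw [h1]
    refine mul_ne_zero (mul_ne_zero hc0 fun h => hc0 ((map_eq_zero σ).1 h)) ?_
    exact sub_ne_zero.2 haσ
  obtain ⟨hfg, h0, hreg⟩ := hquot _ hv _ hu hw0
  obtain ⟨Q, g, hg, hg0, hgV, rfl⟩ := Pool.Agent.Y223.CC.exists_LR hV hfg h0
  have hreg' := lr_regular hreg hV ⟨g, hg, hg0, hgV, rfl⟩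
  have hcV := chart_le_V hV hgV
  obtain ⟨P, hP, hPV, hPreg⟩ := regular_centre' hcV hreg'
  exact ⟨_, chart_fg hfg g, fun a => hcV a.2, P, hP, hPV, hPreg⟩

end Pool.Agent.V1128.INV
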