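import Pool.Agent.V1128.INV.LU

/-!
MP_3029eb_ag: local uniformization, in every dimension and in mixed and equal characteristic, for
the local rings `R = A ^ σ` of the quotients of regular rings by involutions. The residue
characteristic may be `2`, and then the involution may be wild, it may have fixed divisors, and the
other fixed points need not be isolated.

The regular ring `A` is a finite extension of `R`, with the field of fractions `K`, and the
involution `σ` is given on `K`. The local rings of `A` are considered as subrings of `K`. A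
`σ`-stable ideal `I ≠ 0` of `A` gives the centre, which is empty if `I = A`. At the fixed points of
residue characteristic `2`:

* outside the centre, `σ = 1 + t δ`, where the ideal generated by the image of `δ` is the unit
  ideal or has a regular quotient (the fixed scheme is the sum of the divisor `t = 0` and of a
  regular scheme),
* on the centre, `σ = 1 + t δ`, `δ ∘ δ = ε δ`, where `ε` and the image of `δ` are in `I`, and `δ`
  maps `I` into `I ^ 2`, and the leading form of `δ` along the centre has no zeros.
-/

set_option autoImplicit false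

namespace Pool.Agent.Results.MP_3029eb_ag.InvolutionQuotientsLU

/-- The local domain `R` admits local uniformization: for every valuation ring `V` of its field of
fractions which is centred on `R` there is a finitely generated `R`-algebra in `V` whose
localization at the centre of `V` is regular. -/
def AdmitsLU (R : Type) [CommRing R] [IsLocalRing R] : Prop :=
  ∀ (K : Type) [Field K] [Algebra R K] [IsFractionRing R K] (V : ValuationSubring K),
    (∀ r : R, algebraMap R K r ∈ V) →
    (∀ r : R, r ∈ IsLocalRing.maximalIdeal R ↔ V.valuation (algebraMap R K r) < 1) →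
    ∃ A : Subalgebra R K, A.FG ∧ (∀ a : A, (a : K) ∈ V) ∧
      ∃ Q : Ideal A, ∃ (_ : Q.IsPrime), (∀ a : A, a ∈ Q ↔ V.valuation (a : K) < 1) ∧
        IsRegularLocalRing (Localization.AtPrime Q)

section conditions

variable {R K : Type} [CommRing R] [Field K] [Algebra R K]

/-- The local ring of `A` at the prime `𝔮`, as a subring of `K`. -/
noncomputable def localRing (A : Subalgebra R K) (𝔮 : Ideal A.toSubring) [𝔮.IsPrime] : Subring K :=
  (LocalSubring.ofPrime A.toSubring 𝔮).toSubring

/-- The ideal of the centre, generated by the elements of `I`, in the subring `Q`. -/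
def centre {A : Subalgebra R K} (I : Ideal A) (Q : Subring K) : Ideal Q :=
  Ideal.span {y : Q | ∃ n ∈ I, (y : K) = ((n : A) : K)}

variable (σ : K ≃ₐ[R] K)

/-- The point with the local ring `Q` is a point of the fixed scheme of `σ`: the ring `Q` is stable
under `σ`, which acts trivially on its residue field. -/
def IsFixed (Q : Subring K) : Prop :=
  ∀ x : Q, ∃ y : Q, (y : K) = σ x ∧ ¬ IsUnit (y - x)

/-- `σ = 1 + t δ` on `Q`, where the ideal generated by the image of `δ` is the unit ideal, or has a
regular quotient: the fixed scheme is the sum of the divisor of `t` and a regular scheme. -/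
def RegularWild (Q : Subring K) : Prop :=
  ∃ (t : Q) (δ : Q → Q), t ≠ 0 ∧ (∀ x : Q, σ x = x + t * δ x) ∧
    (Ideal.span (Set.range δ) = ⊤ ∨ IsRegularLocalRing (Q ⧸ Ideal.span (Set.range δ)))

/-- `σ = 1 + t δ` on `Q`, and `δ ∘ δ = ε δ`, where `ε` and the image of `δ` are in the ideal `I` of
the centre, and `δ` maps `I` to `I ^ 2`, and the leading form of `δ` along the centre has no zeros:
the products of `n + 2` elements of `I` are combinations of the elements `ε a` and `δ(x) a`,
`a ∈ I ^ (n + 1)`, and `δ(y) b`, `y ∈ I`, `b ∈ I ^ n`. -/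
def NondegenerateWild (Q : Subring K) (I : Ideal Q) : Prop :=
  ∃ (t ε : Q) (δ : Q → Q), t ≠ 0 ∧ (∀ x : Q, σ x = x + t * δ x) ∧ (∀ x, δ (δ x) = ε * δ x) ∧
    ε ∈ I ∧ (∀ x, δ x ∈ I) ∧ (∀ x ∈ I, δ x ∈ I ^ 2) ∧
    ∃ n : ℕ, I ^ (n + 2) ≤ (Ideal.span {ε} ⊔ Ideal.span (Set.range δ)) * I ^ (n + 1) ⊔
      Ideal.span (δ '' I) * I ^ n

/-- The centre is empty or regular at the point with the local ring `Q`, and the fixed points of
residue characteristic `2` outside the centre, and on the centre, satisfy the respective
condition. -/
def PointCondition (Q : Subring K) (I : Ideal Q) : Prop :=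
  (I = ⊤ ∨ IsRegularLocalRing (Q ⧸ I)) ∧
    (¬ IsUnit (2 : Q) → IsFixed σ Q →
      (I = ⊤ → RegularWild σ Q) ∧ (I ≠ ⊤ → NondegenerateWild σ Q I))

end conditions

/-- Let `R` be a Noetherian local domain, and `A` a regular domain which is a finite extension of
`R`, with the field of fractions `K`, and `σ ≠ 1` an involution of `K` over `R` which maps `A` into
itself, such that `R` is the ring of the elements of `A` which are fixed by `σ`. Let `I ≠ 0` be an
ideal of `A`, stable under `σ`, such that the condition `PointCondition` is satisfied at all primes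
of `A`. Then `R` admits local uniformization. -/
theorem result (R : Type) [CommRing R] [IsDomain R] [IsNoetherianRing R] [IsLocalRing R]
    (K : Type) [Field K] [Algebra R K] (hinj : Function.Injective (algebraMap R K))
    (A : Subalgebra R K) (hfin : Module.Finite R A) (hA : IsRegularRing A) (hK : IsFractionRing A K)
    (σ : K ≃ₐ[R] K) (hσ1 : σ ≠ 1) (hσ : ∀ y, σ (σ y) = y) (hσA : ∀ a ∈ A, σ a ∈ A)
    (hR : ∀ x ∈ A, σ x = x → ∃ r : R, algebraMap R K r = x)
    (I : Ideal A) (hI0 : I ≠ ⊥)
    (hσI : ∀ a ∈ I, ∃ b ∈ I, ((b : A) : K) = σ ((a : A) : K))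
    (h : ∀ (𝔮 : Ideal A.toSubring) [𝔮.IsPrime],
      PointCondition σ (localRing A 𝔮) (centre I (localRing A 𝔮))) :
    AdmitsLU R := by
  intro F _ _ _ V hV _
  have hK' : ∀ x : K, ∃ a ∈ A, ∃ b ∈ A, b ≠ 0 ∧ x * b = a := by
    intro x
    obtain ⟨a, b, hb, rfl⟩ := IsFractionRing.div_surjective (A := A) x
    have hb0 : (b : K) ≠ 0 := fun h => nonZeroDivisors.ne_zero hb (Subtype.ext h)
    exact ⟨a, a.2, b, b.2, hb0, div_mul_cancel₀ _ hb0⟩
  have hσ1' : ∃ a ∈ A, σ a ≠ a := by
    by_contra hcon
    push Not at hcon
    apply hσ1
    apply AlgEquiv.ext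
    intro x
    obtain ⟨a, ha, b, hb, hb0, hab⟩ := hK' x
    have h1 : x = a / b := by rw [eq_div_iff hb0, hab]
    rw [h1, map_div₀, hcon a ha, hcon b hb]
    rfl
  exact Pool.Agent.V1128.INV.inv_lu hinj A (Module.Finite.iff_fg.1 hfin) hA hK' σ hσ hσA hσ1' hR I
    hI0 hσI h F V hV

end Pool.Agent.Results.MP_3029eb_ag.InvolutionQuotientsLU
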