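import Pool.Agent.V1128.INV.Res

/-!
MP_b525bf_ag: resolution of singularities, in every dimension, of the quotients of smooth affine
varieties over algebraically closed fields of characteristic `2` by involutions. The involution is
wild, it may have fixed divisors, and the other fixed points need not be isolated.

The variety is the spectrum of the smooth algebra `A` over the field `k`, a subalgebra of a
field `K` (for instance of its field of fractions), and the involution `σ` is given on `K`. The
local rings of `A` are considered as subrings of `K`. A `σ`-stable ideal `I ≠ 0` of `A` gives the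
centre, which is empty if `I = A`. At the fixed points:

* outside the centre, `σ = 1 + t δ`, where the ideal generated by the image of `δ` is the unit
  ideal or has a regular quotient (the fixed scheme is the sum of the divisor `t = 0` and of a
  regular scheme),
* on the centre, `σ = 1 + t δ`, `δ ∘ δ = ε δ`, where `ε` and the image of `δ` are in `I`, and `δ`
  maps `I` into `I ^ 2`, and the leading form of `δ` along the centre has no zeros.

The proof: the quotient is blown up in the product of the module of the products `a σ(b)` and of the
module of the `σ(a) b - a σ(b)`, `a` and `b` in `I`. The charts are regular, hence smooth over the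
perfect field `k`.
-/

set_option autoImplicit false

open AlgebraicGeometry CategoryTheory

namespace Pool.Agent.Results.MP_b525bf_ag.InvolutionQuotients

section conditions

variable {k K : Type} [Field k] [Field K] [Algebra k K]

/-- The local ring of `A` at the prime `𝔮`, as a subring of `K`. -/
noncomputable def localRing (A : Subalgebra k K) (𝔮 : Ideal A.toSubring) [𝔮.IsPrime] : Subring K :=
  (LocalSubring.ofPrime A.toSubring 𝔮).toSubring

/-- The ideal of the centre, generated by the elements of `I`, in the subring `R`. -/
def centre {A : Subalgebra k K} (I : Ideal A) (R : Subring K) : Ideal R :=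
  Ideal.span {y : R | ∃ n ∈ I, (y : K) = ((n : A) : K)}

variable (σ : K ≃ₐ[k] K)

/-- The point with the local ring `R` is a point of the fixed scheme of `σ`: the ring `R` is stable
under `σ`, which acts trivially on its residue field. -/
def IsFixed (R : Subring K) : Prop :=
  ∀ x : R, ∃ y : R, (y : K) = σ x ∧ ¬ IsUnit (y - x)

/-- `σ = 1 + t δ` on `R`, where the ideal generated by the image of `δ` is the unit ideal, or has a
regular quotient: the fixed scheme is the sum of the divisor of `t` and a regular scheme. -/
def RegularWild (R : Subring K) : Prop :=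
  ∃ (t : R) (δ : R → R), t ≠ 0 ∧ (∀ x : R, σ x = x + t * δ x) ∧
    (Ideal.span (Set.range δ) = ⊤ ∨ IsRegularLocalRing (R ⧸ Ideal.span (Set.range δ)))

/-- `σ = 1 + t δ` on `R`, and `δ ∘ δ = ε δ`, where `ε` and the image of `δ` are in the ideal `I` of
the centre, and `δ` maps `I` to `I ^ 2`, and the leading form of `δ` along the centre has no zeros:
the products of `n + 2` elements of `I` are combinations of the elements `ε a` and `δ(x) a`,
`a ∈ I ^ (n + 1)`, and `δ(y) b`, `y ∈ I`, `b ∈ I ^ n`. -/
def NondegenerateWild (R : Subring K) (I : Ideal R) : Prop :=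
  ∃ (t ε : R) (δ : R → R), t ≠ 0 ∧ (∀ x : R, σ x = x + t * δ x) ∧ (∀ x, δ (δ x) = ε * δ x) ∧
    ε ∈ I ∧ (∀ x, δ x ∈ I) ∧ (∀ x ∈ I, δ x ∈ I ^ 2) ∧
    ∃ n : ℕ, I ^ (n + 2) ≤ (Ideal.span {ε} ⊔ Ideal.span (Set.range δ)) * I ^ (n + 1) ⊔
      Ideal.span (δ '' I) * I ^ n

/-- The centre is empty or regular at the point with the local ring `R`, and the fixed points
outside the centre, and on the centre, satisfy the respective condition. -/
def PointCondition (R : Subring K) (I : Ideal R) : Prop :=
  (I = ⊤ ∨ IsRegularLocalRing (R ⧸ I)) ∧
    (IsFixed σ R → (I = ⊤ → RegularWild σ R) ∧ (I ≠ ⊤ → NondegenerateWild σ R I))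

/-- The algebra of the elements of `A` which are invariant under `σ`. -/
def invariants (A : Subalgebra k K) : Subalgebra k K where
  carrier := {x | x ∈ A ∧ σ x = x}
  mul_mem' := by
    rintro a b ⟨ha, ha'⟩ ⟨hb, hb'⟩
    exact ⟨A.mul_mem ha hb, by rw [map_mul, ha', hb']⟩
  add_mem' := by
    rintro a b ⟨ha, ha'⟩ ⟨hb, hb'⟩
    exact ⟨A.add_mem ha hb, by rw [map_add, ha', hb']⟩
  algebraMap_mem' := fun c => ⟨A.algebraMap_mem c, σ.commutes c⟩

/-- The structure morphism of the spectrum of a subalgebra. -/
noncomputable def str (C : Subalgebra k K) : Spec (CommRingCat.of C) ⟶ Spec (CommRingCat.of k) :=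
  Spec.map (CommRingCat.ofHom (algebraMap k C))

/-- The spectrum of the subalgebra `C` is a variety (integral, separated and of finite type) and has
a resolution of singularities: there are an integral scheme `Y`, smooth over `k`, and a proper
morphism from `Y` to the spectrum which is an isomorphism over a dense open subset. -/
def IsResolvable (C : Subalgebra k K) : Prop :=
  (AlgebraicGeometry.IsIntegral (Spec (CommRingCat.of C)) ∧
    AlgebraicGeometry.IsSeparated (str C) ∧ AlgebraicGeometry.LocallyOfFiniteType (str C) ∧
    AlgebraicGeometry.QuasiCompact (str C)) ∧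
  ∃ (Y : Scheme.{0}) (π : Y ⟶ Spec (CommRingCat.of C)),
    AlgebraicGeometry.IsIntegral Y ∧ AlgebraicGeometry.IsProper π ∧
    AlgebraicGeometry.Smooth (π ≫ str C) ∧
    ∃ U : (Spec (CommRingCat.of C)).Opens, Dense (U : Set (Spec (CommRingCat.of C))) ∧
      IsIso (π ∣_ U)

end conditions

/-- Let `k` be an algebraically closed field of characteristic `2`, `A` a smooth `k`-algebra,
contained in a field `K`, and `σ` an involution of `K` over `k` which maps `A` into itself and is
not trivial on `A`. Let `I ≠ 0` be an ideal of `A`, stable under `σ`, such that the condition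
`PointCondition` is satisfied at all primes of `A`. Then the quotient of the spectrum of `A` by `σ`
is a variety and has a resolution of singularities. -/
theorem result (k K : Type) [Field k] [IsAlgClosed k] [CharP k 2] [Field K] [Algebra k K]
    (A : Subalgebra k K) (hA : Algebra.Smooth k A) (σ : K ≃ₐ[k] K) (hσ : ∀ y, σ (σ y) = y)
    (hσA : ∀ a ∈ A, σ a ∈ A) (hσ1 : ∃ a ∈ A, σ a ≠ a) (I : Ideal A) (hI0 : I ≠ ⊥)
    (hσI : ∀ a ∈ I, ∃ b ∈ I, ((b : A) : K) = σ ((a : A) : K))
    (h : ∀ (𝔮 : Ideal A.toSubring) [𝔮.IsPrime],
      PointCondition σ (localRing A 𝔮) (centre I (localRing A 𝔮))) :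
    IsResolvable (invariants σ A) :=
  Pool.Agent.V1128.INV.inv_res A σ hA hσ hσA hσ1 I hI0 hσI fun 𝔮 _ => ⟨(h 𝔮).1, fun _ => (h 𝔮).2⟩

end Pool.Agent.Results.MP_b525bf_ag.InvolutionQuotients
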