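import Pool.Agent.TH188.ARC.A2

/-!
# Regular algebras of finite type over perfect fields are smooth
-/

set_option autoImplicit false
set_option linter.unusedVariables false
set_option linter.unusedSectionVars false

namespace Pool.Agent.V1128.INV

open IsLocalRing

/-- Infinitesimal lifting with the help of a Jacobian matrix. -/
theorem fs_of_jac {k P B R : Type} [CommRing k] [CommRing P] [Algebra k P]
    [Algebra.FormallySmooth k P] [CommRing B] [Algebra k B] (π : P →ₐ[k] B)
    (hπ : Function.Surjective π) [CommRing R] [Algebra B R] [Algebra k R] [IsScalarTower k B R]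
    (d : P) [IsLocalization.Away (π d) R] {r : ℕ} (f : Fin r → P)
    (D : Fin r → Derivation k P P) (hf : ∀ i, π (f i) = 0) (t : P)
    (ht : ∀ a, π a = 0 → t * a ∈ Ideal.span (Set.range f)) (htd : t ∣ d)
    (hdet : (Matrix.of fun i j => D j (f i)).det ∣ d) : Algebra.FormallySmooth k R := by
  classical
  refine Algebra.FormallySmooth.of_comp_surjective ?_
  intro C _ _ J hJ g
  have hJn : IsNilpotent J := ⟨2, hJ⟩
  let ρ : P →ₐ[k] R := (IsScalarTower.toAlgHom k B R).comp π
  have hρd : IsUnit (ρ d) := IsLocalization.Away.algebraMap_isUnit (π d)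
  obtain ⟨h, hh⟩ := Algebra.FormallySmooth.comp_surjective k P J hJ (g.comp ρ)
  have hh' : ∀ a, Ideal.Quotient.mk J (h a) = g (ρ a) := fun a => congrArg (fun φ => φ a) hh
  have hunit : ∀ c : C, IsUnit (Ideal.Quotient.mk J c) → IsUnit c := by
    intro c hc
    obtain ⟨y, hy⟩ := isUnit_iff_exists_inv.1 hc
    obtain ⟨e, rfl⟩ := Ideal.Quotient.mk_surjective y
    rw [← map_mul, ← map_one (Ideal.Quotient.mk J), Ideal.Quotient.eq] at hy
    have h1 : IsNilpotent (c * e - 1) := ⟨2, by
      have := Ideal.pow_mem_pow hy 2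
      rwa [hJ, Ideal.mem_bot] at this⟩
    have h2 : IsUnit (c * e) := by
      have := h1.isUnit_one_add
      rwa [add_sub_cancel] at this
    exact isUnit_of_mul_isUnit_left h2
  have hfJ : ∀ i, h (f i) ∈ J := by
    intro i
    rw [← Ideal.Quotient.eq_zero_iff_mem, hh']
    change g (algebraMap B R (π (f i))) = 0
    rw [hf, map_zero, map_zero]
  set M : Matrix (Fin r) (Fin r) C := Matrix.of fun i j => h (D j (f i)) with hM
  have hMdet : IsUnit M.det := by
    apply hunit
    have h1 : M = (Matrix.of fun i j => D j (f i)).map h := rfl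
    have h2 : M.det = h (Matrix.of fun i j => D j (f i)).det := by
      rw [h1]
      exact (RingHom.map_det (h : P →+* C) _).symm
    rw [h2, hh']
    obtain ⟨e, he⟩ := hdet
    rw [he, map_mul] at hρd
    exact (isUnit_of_mul_isUnit_left hρd).map g
  let c : Fin r → C := -(M⁻¹.mulVec fun i => h (f i))
  have hcJ : ∀ j, c j ∈ J := by
    intro j
    change -(∑ i, M⁻¹ j i * h (f i)) ∈ J
    exact J.neg_mem (J.sum_mem fun i _ => J.mul_mem_left _ (hfJ i))
  have hMc : M.mulVec c = fun i => - h (f i) := by
    change M.mulVec (-(M⁻¹.mulVec fun i => h (f i))) = _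
    rw [Matrix.mulVec_neg, Matrix.mulVec_mulVec, Matrix.mul_nonsing_inv _ hMdet,
      Matrix.one_mulVec]
    rfl
  have hJJ : ∀ a ∈ J, ∀ b ∈ J, a * b = 0 := by
    intro a ha b hb
    have h1 := Ideal.mul_mem_mul ha hb
    rwa [← pow_two, hJ, Ideal.mem_bot] at h1
  let δ : P → C := fun a => ∑ j, c j * h (D j a)
  have hδJ : ∀ a, δ a ∈ J := fun a => J.sum_mem fun j _ => J.mul_mem_right _ (hcJ j)
  have hδmul : ∀ a b, δ (a * b) = h a * δ b + δ a * h b := by
    intro a b
    change ∑ j, c j * h (D j (a * b)) = h a * (∑ j, c j * h (D j b)) + (∑ j, c j * h (D j a)) * h b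
    rw [Finset.mul_sum, Finset.sum_mul, ← Finset.sum_add_distrib]
    refine Finset.sum_congr rfl fun j _ => ?_
    rw [Derivation.leibniz, smul_eq_mul, smul_eq_mul, map_add, map_mul, map_mul]
    ring
  let h' : P →ₐ[k] C :=
    { toFun := fun a => h a + δ a
      map_one' := by
        have : δ 1 = 0 := by
          change ∑ j, c j * h (D j 1) = 0
          simp
        rw [map_one, this, add_zero]
      map_mul' := fun a b => by
        rw [map_mul, hδmul]
        have := hJJ _ (hδJ a) _ (hδJ b)
        linear_combination -this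
      map_zero' := by
        have : δ 0 = 0 := by
          change ∑ j, c j * h (D j 0) = 0
          simp
        rw [map_zero, this, add_zero]
      map_add' := fun a b => by
        have : δ (a + b) = δ a + δ b := by
          change ∑ j, c j * h (D j (a + b)) = ∑ j, c j * h (D j a) + ∑ j, c j * h (D j b)
          rw [← Finset.sum_add_distrib]
          refine Finset.sum_congr rfl fun j _ => ?_
          rw [map_add, map_add]
          ring
        rw [map_add, this]
        ring
      commutes' := fun e => by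
        have : δ (algebraMap k P e) = 0 := by
          change ∑ j, c j * h (D j (algebraMap k P e)) = 0
          simp
        rw [this, add_zero, h.commutes] }
  have hh'q : ∀ a, Ideal.Quotient.mk J (h' a) = g (ρ a) := by
    intro a
    change Ideal.Quotient.mk J (h a + δ a) = _
    rw [map_add, hh', Ideal.Quotient.eq_zero_iff_mem.2 (hδJ a), add_zero]
  have hf' : ∀ i, h' (f i) = 0 := by
    intro i
    change h (f i) + ∑ j, c j * h (D j (f i)) = 0
    have h1 := congrFun hMc i
    change ∑ j, M i j * c j = - h (f i) at h1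
    have h2 : ∑ j, c j * h (D j (f i)) = ∑ j, M i j * c j :=
      Finset.sum_congr rfl fun j _ => by rw [mul_comm]; rfl
    rw [h2, h1, add_neg_cancel]
  have hker : ∀ a, π a = 0 → h' a = 0 := by
    intro a ha
    have h1 := ht a ha
    have h2 : Ideal.span (Set.range f) ≤ RingHom.ker (h' : P →+* C) := by
      rw [Ideal.span_le]
      rintro _ ⟨i, rfl⟩
      exact hf' i
    have h3 : h' (t * a) = 0 := h2 h1
    rw [map_mul] at h3
    have h4 : IsUnit (h' t) := by
      apply hunit
      rw [hh'q]
      obtain ⟨e, he⟩ := htd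
      rw [he, map_mul] at hρd
      exact (isUnit_of_mul_isUnit_left hρd).map g
    exact (h4.mul_right_eq_zero).1 h3
  let s : B → P := Function.surjInv hπ
  have hs : ∀ b, π (s b) = b := Function.surjInv_eq hπ
  have hwd : ∀ a b, π a = π b → h' a = h' b := by
    intro a b hab
    have := hker (a - b) (by rw [map_sub, hab, sub_self])
    rwa [map_sub, sub_eq_zero] at this
  let h'' : B →ₐ[k] C :=
    { toFun := fun b => h' (s b)
      map_one' := by
        rw [← map_one h']
        exact hwd _ _ (by rw [hs, map_one])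
      map_mul' := fun a b => by
        rw [← map_mul]
        exact hwd _ _ (by rw [hs, map_mul, hs, hs])
      map_zero' := by
        rw [← map_zero h']
        exact hwd _ _ (by rw [hs, map_zero])
      map_add' := fun a b => by
        rw [← map_add]
        exact hwd _ _ (by rw [hs, map_add, hs, hs])
      commutes' := fun e => by
        rw [← h'.commutes e]
        exact hwd _ _ (by rw [hs, π.commutes]) }
  have hh'' : ∀ a, h'' (π a) = h' a := fun a => hwd _ _ (hs _)
  have hu : ∀ y : Submonoid.powers (π d), IsUnit ((h'' : B →+* C) y) := by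
    rintro ⟨_, n, rfl⟩
    change IsUnit (h'' (π d ^ n))
    rw [map_pow, hh'']
    refine IsUnit.pow n (hunit _ ?_)
    rw [hh'q]
    exact hρd.map g
  let G : R →ₐ[k] C := IsLocalization.liftAlgHom (M := Submonoid.powers (π d)) (f := h'') hu
  have hG : ∀ b, G (algebraMap B R b) = h'' b := fun b => IsLocalization.lift_eq hu b
  refine ⟨G, ?_⟩
  have h1 : ∀ b : B, Ideal.Quotient.mk J (G (algebraMap B R b)) = g (algebraMap B R b) := by
    intro b
    rw [hG]
    obtain ⟨a, rfl⟩ := hπ b
    rw [hh'', hh'q]
    rfl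
  have h2 : ((Ideal.Quotient.mkₐ k J).comp G : R →+* C ⧸ J) = (g : R →+* C ⧸ J) :=
    IsLocalization.ringHom_ext (Submonoid.powers (π d)) (RingHom.ext fun b => h1 b)
  exact AlgHom.ext fun x => congrArg (fun φ : R →+* C ⧸ J => φ x) h2

/-- A regular algebra of finite type over a perfect field is smooth. -/
theorem smooth_of_regular {k B : Type} [Field k] [PerfectField k] [CommRing B] [Algebra k B]
    [Algebra.FiniteType k B]
    (hreg : ∀ (q : Ideal B) [q.IsPrime], IsRegularLocalRing (Localization.AtPrime q)) :
    Algebra.Smooth k B := by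
  classical
  have hfp : Algebra.FinitePresentation k B := Algebra.FinitePresentation.of_finiteType.1 inferInstance
  refine ⟨?_, hfp⟩
  rw [← Algebra.smoothLocus_eq_univ_iff, Set.eq_univ_iff_forall]
  intro q
  obtain ⟨n, π, hπ⟩ := Algebra.FiniteType.iff_quotient_mvPolynomial''.1
    (inferInstance : Algebra.FiniteType k B)
  let L := q.asIdeal.ResidueField
  let _ : Algebra (MvPolynomial (Fin n) k) L := ((algebraMap B L).comp (π : _ →+* B)).toAlgebra
  have hPL : ∀ a, algebraMap (MvPolynomial (Fin n) k) L a = algebraMap B L (π a) := fun a => rfl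
  have htow : IsScalarTower k (MvPolynomial (Fin n) k) L := IsScalarTower.of_algebraMap_eq fun e => by
    rw [hPL, π.commutes]
    exact IsScalarTower.algebraMap_apply k B L e
  have hkerL : ∀ b : B, algebraMap B L b = 0 ↔ b ∈ q.asIdeal := fun b =>
    Ideal.algebraMap_residueField_eq_zero
  have hprime : (RingHom.ker (algebraMap (MvPolynomial (Fin n) k) L)).IsPrime :=
    RingHom.ker_isPrime _
  have hess : Algebra.EssFiniteType k L := Algebra.EssFiniteType.comp k B L
  have hsm : Algebra.FormallySmooth k L := Algebra.FormallySmooth.of_perfectField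
  have hL : Subsingleton (Algebra.H1Cotangent k L) :=
    Algebra.FormallySmooth.subsingleton_h1Cotangent
  have hfr : ∀ z : L, ∃ a b : MvPolynomial (Fin n) k,
      algebraMap (MvPolynomial (Fin n) k) L b ≠ 0 ∧
      z * algebraMap (MvPolynomial (Fin n) k) L b = algebraMap (MvPolynomial (Fin n) k) L a := by
    intro z
    obtain ⟨a, b, hb, rfl⟩ := IsFractionRing.div_surjective (A := B ⧸ q.asIdeal) z
    obtain ⟨a, rfl⟩ := Ideal.Quotient.mk_surjective a
    obtain ⟨b, rfl⟩ := Ideal.Quotient.mk_surjective b
    obtain ⟨a, rfl⟩ := hπ a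
    obtain ⟨b, rfl⟩ := hπ b
    have h1 : algebraMap (B ⧸ q.asIdeal) L (Ideal.Quotient.mk _ (π b)) ≠ 0 := by
      intro h
      exact nonZeroDivisors.ne_zero hb
        (IsFractionRing.injective (B ⧸ q.asIdeal) L (by rw [h, map_zero]))
    have h2 : ∀ c : B, algebraMap (B ⧸ q.asIdeal) L (Ideal.Quotient.mk _ c) = algebraMap B L c :=
      fun c => (IsScalarTower.algebraMap_apply B (B ⧸ q.asIdeal) L c).symm
    refine ⟨a, b, ?_, ?_⟩
    · rw [hPL, ← h2]
      exact h1
    · rw [hPL, hPL, ← h2, ← h2]
      exact div_mul_cancel₀ _ h1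
  -- the regular local rings
  set Q := RingHom.ker (algebraMap (MvPolynomial (Fin n) k) L) with hQ
  have hQq : ∀ a, a ∈ Q ↔ π a ∈ q.asIdeal := by
    intro a
    rw [hQ, RingHom.mem_ker, hPL, hkerL]
  let 𝔭 : Ideal (MvPolynomial (Fin n) k) := RingHom.ker (π : _ →+* B)
  have h𝔭 : 𝔭 ≤ Q := by
    intro a ha
    rw [hQq]
    have : π a = 0 := ha
    rw [this]
    exact q.asIdeal.zero_mem
  let O := Localization.AtPrime Q
  have hO : IsRegularLocalRing O := IsRegularRing.isRegularLocalRing_localization Q
  have hmap : Submonoid.map (π : MvPolynomial (Fin n) k →+* B) Q.primeCompl =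
      q.asIdeal.primeCompl := by
    ext b
    constructor
    · rintro ⟨a, ha, rfl⟩
      exact fun h => ha ((hQq a).2 h)
    · intro hb
      obtain ⟨a, rfl⟩ := hπ b
      exact ⟨a, fun h => hb ((hQq a).1 h), rfl⟩
  have hOq : IsRegularLocalRing (O ⧸ 𝔭.map (algebraMap (MvPolynomial (Fin n) k) O)) := by
    have h1 := IsLocalization.ker_map (S := O) (Localization.AtPrime q.asIdeal)
      (g := (π : MvPolynomial (Fin n) k →+* B)) hmap
    have h2 : Function.Surjective (IsLocalization.map (Localization.AtPrime q.asIdeal)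
        (π : MvPolynomial (Fin n) k →+* B) (hmap.symm ▸ Submonoid.le_comap_map _) :
          O →+* Localization.AtPrime q.asIdeal) := by
      intro z
      obtain ⟨b, c, rfl⟩ := IsLocalization.exists_mk'_eq q.asIdeal.primeCompl z
      obtain ⟨a, rfl⟩ := hπ b
      obtain ⟨a', ha', hs⟩ : (c : B) ∈ Submonoid.map (π : MvPolynomial (Fin n) k →+* B)
          Q.primeCompl := by
        rw [hmap]
        exact c.2
      refine ⟨IsLocalization.mk' O a ⟨a', ha'⟩, ?_⟩
      rw [IsLocalization.map_mk']
      congr 1
      exact Subtype.ext hs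
    have := hreg q.asIdeal
    refine IsRegularLocalRing.of_ringEquiv (R := Localization.AtPrime q.asIdeal) ?_
    exact (RingHom.quotientKerEquivOfSurjective h2).symm.trans (Ideal.quotEquivOfEq h1)
  obtain ⟨r, f, D, hf, hft, hdet⟩ := Pool.Agent.TH188.ARC.exists_jac_at (k₀ := k)
    (S := MvPolynomial (Fin n) k) (L := L) hL hfr (O := O) 𝔭 h𝔭
  -- a common denominator
  have hfg : 𝔭.FG := IsNoetherian.noetherian 𝔭
  obtain ⟨G, hG⟩ := hfg
  have hcommon : ∃ t, algebraMap (MvPolynomial (Fin n) k) L t ≠ 0 ∧
      ∀ s ∈ G, t * s ∈ Ideal.span (Set.range f) := by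
    have hGm : ∀ s ∈ G, s ∈ 𝔭 := fun s hs => hG ▸ Ideal.subset_span hs
    clear hG
    induction G using Finset.induction_on with
    | empty => exact ⟨1, by rw [map_one]; exact one_ne_zero, fun s hs => absurd hs (Finset.notMem_empty _)⟩
    | insert a G ha ih =>
      obtain ⟨t, ht, h1⟩ := ih fun s hs => hGm s (Finset.mem_insert_of_mem hs)
      obtain ⟨u, hu, h2⟩ := hft a (hGm a (Finset.mem_insert_self _ _))
      refine ⟨t * u, by rw [map_mul]; exact mul_ne_zero ht hu, fun s hs => ?_⟩
      rcases Finset.mem_insert.1 hs with rfl | hs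
      · rw [mul_assoc]
        exact Ideal.mul_mem_left _ _ h2
      · have : t * u * s = u * (t * s) := by ring
        rw [this]
        exact Ideal.mul_mem_left _ _ (h1 s hs)
  obtain ⟨t, ht0, ht⟩ := hcommon
  have ht' : ∀ a, π a = 0 → t * a ∈ Ideal.span (Set.range f) := by
    intro a ha
    have h1 : a ∈ 𝔭 := ha
    rw [← hG] at h1
    clear ha
    induction h1 using Submodule.span_induction with
    | mem a ha => exact ht a ha
    | zero => rw [mul_zero]; exact Ideal.zero_mem _
    | add a b _ _ ha hb => rw [mul_add]; exact Ideal.add_mem _ ha hb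
    | smul c a _ ha =>
      rw [smul_eq_mul, mul_left_comm]
      exact Ideal.mul_mem_left _ _ ha
  set e := (Matrix.of fun i j => D j (f i)).det with he
  have hedet : algebraMap (MvPolynomial (Fin n) k) L e ≠ 0 := by
    have : algebraMap (MvPolynomial (Fin n) k) L e =
        (Matrix.of fun i j => algebraMap (MvPolynomial (Fin n) k) L (D j (f i))).det := by
      rw [he, RingHom.map_det]
      rfl
    rw [this]
    exact hdet
  have hFS : Algebra.FormallySmooth k (Localization.Away (π (t * e))) :=
    fs_of_jac π hπ (t * e) f D (fun i => hf i) t ht' (dvd_mul_right _ _) (dvd_mul_left _ _)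
  have h3 := Algebra.basicOpen_subset_smoothLocus_iff.2 hFS
  apply h3
  change π (t * e) ∉ q.asIdeal
  rw [← hkerL, ← hPL, map_mul]
  exact mul_ne_zero ht0 hedet

end Pool.Agent.V1128.INV
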