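import Pool.Agent.Y223.INV.Fin2
import Pool.Agent.V1128.INV.Sm
import Pool.Agent.H920R2.Trans
import Pool.Agent.H920R2.Sr1

/-!
# Resolution of the quotients of smooth affine varieties by involutions
-/

set_option autoImplicit false
set_option linter.unusedVariables false
set_option linter.unusedSectionVars false

open AlgebraicGeometry CategoryTheory

namespace Pool.Agent.V1128.INV

open IsLocalRing Pool.Agent.TH188.QS Pool.Agent.TH188.ARC Pool.Agent.W418.LU2
  Pool.Agent.H918R2.Quad Pool.Agent.Y223.INV Pool.Agent.H920R2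

variable {k K : Type} [Field k] [Field K] [Algebra k K]

/-- The algebra of the invariants. -/
def Inv (A : Subalgebra k K) (σ : K ≃ₐ[k] K) : Subalgebra k K where
  carrier := {x | x ∈ A ∧ σ x = x}
  mul_mem' := by
    rintro a b ⟨ha, ha'⟩ ⟨hb, hb'⟩
    exact ⟨A.mul_mem ha hb, by rw [map_mul, ha', hb']⟩
  add_mem' := by
    rintro a b ⟨ha, ha'⟩ ⟨hb, hb'⟩
    exact ⟨A.add_mem ha hb, by rw [map_add, ha', hb']⟩
  algebraMap_mem' := fun c => ⟨A.algebraMap_mem c, σ.commutes c⟩

variable (A : Subalgebra k K) (σ : K ≃ₐ[k] K)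

/-- The algebra as a module over the invariants. -/
def Ms : Submodule (Inv A σ) K where
  carrier := A
  add_mem' := A.add_mem
  zero_mem' := A.zero_mem
  smul_mem' := fun c x hx => A.mul_mem c.2.1 hx

/-- The ideal as a module over the invariants. -/
def Is (I : Ideal A) : Submodule (Inv A σ) K where
  carrier := {y | ∃ a ∈ I, (a : K) = y}
  add_mem' := by
    rintro _ _ ⟨a, ha, rfl⟩ ⟨b, hb, rfl⟩
    exact ⟨a + b, I.add_mem ha hb, rfl⟩
  zero_mem' := ⟨0, I.zero_mem, rfl⟩
  smul_mem' := by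
    rintro c _ ⟨a, ha, rfl⟩
    exact ⟨⟨(c : K), c.2.1⟩ * a, I.mul_mem_left _ ha, rfl⟩

lemma finite_inv [Algebra.FiniteType k A] (hσ : ∀ y, σ (σ y) = y) (hσA : ∀ a ∈ A, σ a ∈ A) :
    Algebra.FiniteType k (Inv A σ) ∧ (Ms A σ).FG := by
  have hle : Inv A σ ≤ A := fun x hx => hx.1
  let _ : Algebra (Inv A σ) A := (Subalgebra.inclusion hle).toRingHom.toAlgebra
  have htow : IsScalarTower k (Inv A σ) A := IsScalarTower.of_algebraMap_eq fun _ => rfl
  have hval : ∀ c : Inv A σ, ((algebraMap (Inv A σ) A c : A) : K) = c := fun _ => rfl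
  have hint : Algebra.IsIntegral (Inv A σ) A := by
    constructor
    intro a
    have h1 : (a : K) + σ a ∈ Inv A σ :=
      ⟨A.add_mem a.2 (hσA _ a.2), by rw [map_add, hσ, add_comm]⟩
    have h2 : (a : K) * σ a ∈ Inv A σ :=
      ⟨A.mul_mem a.2 (hσA _ a.2), by rw [map_mul, hσ, mul_comm]⟩
    refine ⟨Polynomial.X ^ 2 - Polynomial.C (⟨_, h1⟩ : Inv A σ) * Polynomial.X +
      Polynomial.C (⟨_, h2⟩ : Inv A σ), by monicity!, ?_⟩
    apply Subtype.ext
    simp only [Polynomial.eval₂_add, Polynomial.eval₂_sub, Polynomial.eval₂_mul,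
      Polynomial.eval₂_pow, Polynomial.eval₂_X, Polynomial.eval₂_C]
    change (a : K) ^ 2 - ((a : K) + σ a) * a + (a : K) * σ a = 0
    ring
  have hft : Algebra.FiniteType (Inv A σ) A :=
    Algebra.FiniteType.of_restrictScalars_finiteType k _ _
  have hfin : Module.Finite (Inv A σ) A := Algebra.IsIntegral.finite
  constructor
  · refine ⟨?_⟩
    refine fg_of_fg_of_fg k (Inv A σ) A ?_ hfin.1 ?_
    · exact (inferInstance : Algebra.FiniteType k A).1
    · exact Subalgebra.inclusion_injective hle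
  · let φ : A →ₗ[Inv A σ] K :=
      { toFun := fun a => a
        map_add' := fun _ _ => rfl
        map_smul' := fun _ _ => rfl }
    have h1 : Ms A σ = (⊤ : Submodule (Inv A σ) A).map φ := by
      ext x
      constructor
      · intro hx
        exact ⟨⟨x, hx⟩, trivial, rfl⟩
      · rintro ⟨a, -, rfl⟩
        exact a.2
    rw [h1]
    exact hfin.1.map φ

/-- The local ring at a prime. -/
noncomputable abbrev Lr (q : Ideal A.toSubring) [q.IsPrime] : Subring K :=
  (LocalSubring.ofPrime A.toSubring q).toSubring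

/-- The ideal of the centre in the local ring. -/
def Ctr (I : Ideal A) (R : Subring K) : Ideal R :=
  Ideal.span {y : R | ∃ n ∈ I, (y : K) = ((n : A) : K)}

theorem inv_res [PerfectField k] (hA : Algebra.Smooth k A) (hσ : ∀ y, σ (σ y) = y)
    (hσA : ∀ a ∈ A, σ a ∈ A) (hσ1 : ∃ a ∈ A, σ a ≠ a) (I : Ideal A) (hI0 : I ≠ ⊥)
    (hσI : ∀ a ∈ I, ∃ b ∈ I, ((b : A) : K) = σ ((a : A) : K))
    (hpt : ∀ (q : Ideal A.toSubring) [q.IsPrime],
      (Ctr A I (Lr A q) = ⊤ ∨ IsRegularLocalRing (Lr A q ⧸ Ctr A I (Lr A q))) ∧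
      (¬ IsUnit (2 : Lr A q) → IsFixed σ (Lr A q) →
        (Ctr A I (Lr A q) = ⊤ → RegularWild σ (Lr A q)) ∧
        (Ctr A I (Lr A q) ≠ ⊤ → NondegenerateWild σ (Lr A q) (Ctr A I (Lr A q))))) :
    IsVariety (X := Spec (CommRingCat.of (Inv A σ)))
      (Spec.map (CommRingCat.ofHom (algebraMap k (Inv A σ)))) ∧
    HasResolution (X := Spec (CommRingCat.of (Inv A σ)))
      (Spec.map (CommRingCat.ofHom (algebraMap k (Inv A σ)))) := by
  classical
  have hAft : Algebra.FiniteType k A := inferInstance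
  obtain ⟨hft, hMfg⟩ := finite_inv A σ hσ hσA
  refine ⟨isVariety_spec, ?_⟩
  have hnoeth : IsNoetherianRing (Inv A σ) := Algebra.FiniteType.isNoetherianRing k _
  -- the field of invariants
  let F : Subfield K := RingHom.eqLocusField (σ : K →+* K) (RingHom.id K)
  have hFm : ∀ x, x ∈ F ↔ σ x = x := fun x => Iff.rfl
  let gr : Inv A σ →+* F := (Inv A σ).toSubring.subtype.codRestrict F fun x => (hFm _).2 x.2.2
  let _ : Algebra (Inv A σ) F := gr.toAlgebra
  have hgr : ∀ x : Inv A σ, ((algebraMap (Inv A σ) F x : F) : K) = x := fun _ => rfl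
  have hst : IsScalarTower (Inv A σ) F K := IsScalarTower.of_algebraMap_eq fun _ => rfl
  let _ : Algebra k F := (gr.comp (algebraMap k (Inv A σ))).toAlgebra
  let g : Inv A σ →ₐ[k] F := { gr with commutes' := fun _ => rfl }
  have hg : Function.Injective g := by
    intro x y h
    have h1 : ((g x : F) : K) = ((g y : F) : K) := congrArg Subtype.val h
    exact Subtype.ext h1
  -- the involution
  let σO : K ≃ₐ[Inv A σ] K := AlgEquiv.ofRingEquiv (f := σ.toRingEquiv) fun x => x.2.2
  have hσO : ∀ x, σO x = σ x := fun _ => rfl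
  have hF : ∀ x, σO x = x ↔ ∃ f : F, algebraMap F K f = x := by
    intro x
    constructor
    · intro hx
      exact ⟨⟨x, hx⟩, rfl⟩
    · rintro ⟨f, rfl⟩
      exact f.2
  have hsM : ∀ x ∈ Ms A σ, σO x ∈ Ms A σ := fun x hx => hσA x hx
  have hIM : Is A σ I ≤ Ms A σ := by
    rintro _ ⟨a, -, rfl⟩
    exact a.2
  have hIfg : (Is A σ I).FG := fg_of_le hIM hMfg
  have hsI : ∀ x ∈ Is A σ I, σO x ∈ Is A σ I := by
    rintro _ ⟨a, ha, rfl⟩
    exact hσI a ha
  obtain ⟨a₀, ha₀, ha₀0⟩ := I.ne_bot_iff.1 hI0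
  have hI0' : ∃ a ∈ Is A σ I, a ≠ 0 := ⟨a₀, ⟨a₀, ha₀, rfl⟩, fun h => ha₀0 (Subtype.ext h)⟩
  have h1M : (1 : K) ∈ Ms A σ := A.one_mem
  have hchart : (chart (Inv A σ) (Ms A σ) 1).toSubring = A.toSubring := by
    apply le_antisymm
    · let V' : Subalgebra (Inv A σ) K := { A.toSubring with algebraMap_mem' := fun x => x.2.1 }
      have : chart (Inv A σ) (Ms A σ) 1 ≤ V' := Algebra.adjoin_le (by
        rintro _ ⟨m, hm, rfl⟩
        change m / 1 ∈ A
        rw [div_one]
        exact hm)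
      exact this
    · intro x hx
      exact Algebra.subset_adjoin ⟨x, hx, (div_one x).symm⟩
  have hcond : ∀ W : ValuationSubring K, (∀ o, algebraMap (Inv A σ) K o ∈ W) →
      ∃ m ∈ Ms A σ, m ≠ 0 ∧ (∀ x ∈ Ms A σ, x / m ∈ W) ∧
        Cond σO (Is A σ I) W (lo W.toSubring (chart (Inv A σ) (Ms A σ) m).toSubring) m := by
    intro W hOW
    have hAW : A.toSubring ≤ W.toSubring := by
      intro a ha
      by_contra hcon
      have h1 : (a : K) + σ a ∈ W := hOW ⟨a + σ a, A.add_mem ha (hσA _ ha), by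
        rw [map_add, hσ, add_comm]⟩
      have h2 : (a : K) * σ a ∈ W := hOW ⟨a * σ a, A.mul_mem ha (hσA _ ha), by
        rw [map_mul, hσ, mul_comm]⟩
      have h3 : a⁻¹ ∈ W := (W.mem_or_inv_mem a).resolve_left hcon
      have ha0 : a ≠ 0 := fun h => hcon (h ▸ W.zero_mem)
      have h4 : a = (a + σ a) - (a * σ a) * a⁻¹ := by
        field_simp
        ring
      apply hcon
      change a ∈ W
      rw [h4]
      exact W.sub_mem h1 (W.mul_mem _ _ h2 h3)
    refine ⟨1, h1M, one_ne_zero, fun x hx => ?_, ?_⟩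
    · rw [div_one]
      exact hAW hx
    rw [hchart]
    let φ : A.toSubring →+* W := A.toSubring.subtype.codRestrict W fun x => hAW x.2
    let P : Ideal A.toSubring := (maximalIdeal W).comap φ
    have hP : P.IsPrime := Ideal.comap_isPrime _ _
    have hPN : ∀ a : A.toSubring, a ∈ P ↔ NU W.toSubring (a : K) := by
      intro a
      have h1 : a ∈ P ↔ φ a ∈ maximalIdeal W := Iff.rfl
      rw [h1, mem_maximalIdeal, mem_nonunits_iff, NU, not_iff_not]
      constructor
      · intro h
        obtain ⟨y, hy⟩ := isUnit_iff_exists_inv.1 h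
        have h2 : (a : K) * y = 1 := congrArg Subtype.val hy
        refine ⟨left_ne_zero_of_mul_eq_one h2, ?_⟩
        rw [← eq_inv_of_mul_eq_one_right h2]
        exact y.2
      · rintro ⟨h2, h3⟩
        exact isUnit_iff_exists_inv.2 ⟨⟨_, h3⟩, Subtype.ext (mul_inv_cancel₀ h2)⟩
    have hR := ofPrime_eq_lo hAW P hPN
    have hpt' := hpt P
    have hregR : IsRegularLocalRing (LocalSubring.ofPrime A.toSubring P).toSubring := by
      have h5 : IsRegularLocalRing (Localization.AtPrime P) := @regular_of_smooth k A _ _ _ hA P hP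
      exact IsRegularLocalRing.of_ringEquiv (LocalSubring.ofPrimeEquiv A.toSubring P).toRingEquiv
    unfold Lr at hpt'
    rw [hR] at hpt' hregR
    obtain ⟨hZ, hfix⟩ := hpt'
    have hQW : lo W.toSubring A.toSubring ≤ W.toSubring := lo_le hAW
    have hctr : Ctr A I (lo W.toSubring A.toSubring) =
        Ideal.span {y : lo W.toSubring A.toSubring | ∃ n ∈ Is A σ I, (y : K) = n / 1} := by
      unfold Ctr
      congr 1
      ext y
      constructor
      · rintro ⟨n, hn, h⟩
        exact ⟨n, ⟨n, hn, rfl⟩, by rw [div_one, h]⟩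
      · rintro ⟨_, ⟨n, hn, rfl⟩, h⟩
        exact ⟨n, hn, by rw [h, div_one]⟩
    refine cond_of hQW (ic_lo hAW) hregR ?_ hI0' one_ne_zero hctr hσ ?_ hZ
      (fun h1 h2 => (hfix h1 h2).1) (fun h1 h2 => (hfix h1 h2).2)
    · rintro _ ⟨n, hn, rfl⟩
      rw [div_one]
      exact le_lo _ _ n.2
    · obtain ⟨a, ha, haσ⟩ := hσ1
      exact ⟨a, le_lo _ _ ha, haσ⟩
  have hquot := inv_quot (F := F) σO hσ hF hMfg hIfg hsM hsI hIM hI0' hcond
  -- a nonzero antisymmetric element
  obtain ⟨a, ha, haσ⟩ := hσ1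
  have hc0 : (a₀ : K) ≠ 0 := fun h => ha₀0 (Subtype.ext h)
  have hcI : (a₀ : K) ∈ Is A σ I := ⟨a₀, ha₀, rfl⟩
  have hv : a * (a₀ : K) ∈ Ms A σ * Is A σ I := Submodule.mul_mem_mul ha hcI
  have hu : 1 * (a₀ : K) ∈ Ms A σ * Is A σ I := Submodule.mul_mem_mul h1M hcI
  set w := wd σO (a * (a₀ : K)) (1 * (a₀ : K)) with hw
  have hw0 : w ≠ 0 := by
    have h1 : w = ((a₀ : K) * σ (a₀ : K)) * (σ a - a) := by
      rw [hw, wd, hσO, hσO, map_mul, map_mul, map_one]
      ring
    rw [h1]
    refine mul_ne_zero (mul_ne_zero hc0 fun h => hc0 ((map_eq_zero σ).1 h)) ?_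
    exact sub_ne_zero.2 haσ
  have hwσ : σ w = - w := s_wd (σ := σO) hσ _ _
  obtain ⟨hfg, h0, hreg⟩ := hquot _ hv _ hu hw0
  set Mq := VF F σO (Ms A σ * Is A σ I) * WF F σO (Ms A σ * Is A σ I) w with hMq
  -- everything is contained in the algebra
  have hMIA : ∀ x ∈ Ms A σ * Is A σ I, x ∈ A := by
    intro x hx
    refine Submodule.mul_induction_on hx (fun a ha b hb => ?_) (fun a b ha hb => A.add_mem ha hb)
    exact A.mul_mem ha (hIM hb)
  have hMSA : ∀ x ∈ (Ms A σ * Is A σ I) * SM σO (Ms A σ * Is A σ I), x ∈ A := by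
    intro x hx
    refine Submodule.mul_induction_on hx (fun a ha b hb => ?_) (fun a b ha hb => A.add_mem ha hb)
    obtain ⟨b', hb', rfl⟩ := hb
    exact A.mul_mem (hMIA a ha) (hσA _ (hMIA _ hb'))
  have hwA : w ∈ A := hMSA _ (wd_le (wd_mem hv hu))
  have hden : ∀ f ∈ Mq, w ^ 2 * algebraMap F K f ∈ Inv A σ := by
    intro f hf
    refine ⟨?_, ?_⟩
    · refine Submodule.mul_induction_on hf (fun a ha b hb => ?_) (fun a b ha hb => ?_)
      · have h1 := hMSA _ (mem_VF.1 ha)
        have h2 := hMSA _ (wd_le (mem_WF.1 hb))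
        have h3 : w ^ 2 * algebraMap F K (a * b) =
            w * (algebraMap F K a * (algebraMap F K b * w)) := by
          rw [map_mul]
          ring
        rw [h3]
        exact A.mul_mem hwA (A.mul_mem h1 h2)
      · rw [map_add, mul_add]
        exact A.add_mem ha hb
    · have h1 : σ (algebraMap F K f) = algebraMap F K f := f.2
      rw [map_mul, map_pow, hwσ, h1]
      ring
  obtain ⟨f₀, hf₀, hf₀0⟩ := h0
  obtain ⟨G, hG⟩ := hfg
  have hGM : ∀ f ∈ G, f ∈ Mq := fun f hf => hG ▸ Submodule.subset_span hf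
  have hG0 : ∃ f ∈ G, f ≠ 0 := by
    by_contra hcon
    push Not at hcon
    apply hf₀0
    have h1 : Submodule.span (Inv A σ) (G : Set F) ≤ ⊥ := by
      rw [Submodule.span_le]
      intro f hf
      exact hcon f hf
    rw [hG] at h1
    exact (Submodule.mem_bot _).1 (h1 hf₀)
  let z : G → Inv A σ := fun f => ⟨w ^ 2 * algebraMap F K (f : F), hden _ (hGM _ f.2)⟩
  have hw2F : σ (w ^ 2) = w ^ 2 := by rw [map_pow, hwσ, neg_sq]
  let w2 : F := ⟨w ^ 2, hw2F⟩
  have hw2 : w2 ≠ 0 := fun h => pow_ne_zero 2 hw0 (congrArg Subtype.val h)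
  have hgz : ∀ f : G, g (z f) = w2 * (f : F) := fun f => rfl
  have hratio : ∀ f f' : G, g (z f) / g (z f') = (f : F) / (f' : F) := by
    intro f f'
    rw [hgz, hgz, mul_div_mul_left _ _ hw2]
  have hz0 : ∀ f : G, z f ≠ 0 ↔ (f : F) ≠ 0 := by
    intro f
    rw [← (map_ne_zero_iff g hg), hgz]
    exact ⟨right_ne_zero_of_mul, mul_ne_zero hw2⟩
  refine hasResolution_of_charts' g hg z Set.univ ?_ ?_
  · intro V hV
    obtain ⟨f₁, hf₁, hf₁0⟩ := hG0
    have : Nonempty G := ⟨⟨f₁, hf₁⟩⟩
    obtain ⟨s, hs⟩ := Finite.exists_max (fun i : G => V.valuation (i : F))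
    have hs0 : (s : F) ≠ 0 := by
      intro h
      have h1 := hs ⟨f₁, hf₁⟩
      rw [h, map_zero, le_zero_iff] at h1
      exact hf₁0 ((Valuation.zero_iff _).1 h1)
    refine ⟨s, trivial, (hz0 s).2 hs0, fun i => ?_⟩
    rw [hratio, ← V.valuation_le_one_iff, map_div₀]
    exact div_le_one_of_le₀ (hs i) zero_le
  · intro s _ hs
    have hs0 : (s : F) ≠ 0 := (hz0 s).1 hs
    set C := Algebra.adjoin k (Set.range g ∪ Set.range fun i => g (z i) / g (z s)) with hC
    refine ⟨C, ?_, fun a => Algebra.subset_adjoin (Or.inl ⟨a, rfl⟩),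
      fun i => Algebra.subset_adjoin (Or.inr ⟨i, rfl⟩), le_rfl⟩
    have hCfg : C.FG := by
      rw [hC, Algebra.adjoin_union]
      refine Subalgebra.FG.sup ?_ (Subalgebra.fg_def.2 ⟨_, Set.finite_range _, rfl⟩)
      have h1 : Algebra.adjoin k (Set.range g) = g.range := by
        have : Set.range g = (g.range : Set F) := rfl
        rw [this, Algebra.adjoin_eq]
      rw [h1]
      have : g.range = (⊤ : Subalgebra k (Inv A σ)).map g := (Algebra.map_top g).symm
      rw [this]
      exact Subalgebra.FG.map g hft.1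
    have hCft : Algebra.FiniteType k C := (Subalgebra.fg_iff_finiteType C).1 hCfg
    have hCeq : (chart (Inv A σ) Mq (s : F)).toSubring = C.toSubring := by
      apply le_antisymm
      · let V' : Subalgebra (Inv A σ) F :=
          { C.toSubring with algebraMap_mem' := fun x => Algebra.subset_adjoin (Or.inl ⟨x, rfl⟩) }
        have : chart (Inv A σ) Mq (s : F) ≤ V' := Algebra.adjoin_le (by
          rintro _ ⟨m, hm, rfl⟩
          rw [← hG] at hm
          induction hm using Submodule.span_induction with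
          | mem m hm =>
            have h1 : m / (s : F) = g (z ⟨m, hm⟩) / g (z s) := (hratio ⟨m, hm⟩ s).symm
            rw [h1]
            exact Algebra.subset_adjoin (Or.inr ⟨⟨m, hm⟩, rfl⟩)
          | zero => rw [zero_div]; exact V'.zero_mem
          | add a b _ _ ha hb => rw [add_div]; exact V'.add_mem ha hb
          | smul c a _ ha => rw [smul_div_assoc]; exact V'.smul_mem ha c)
        exact this
      · intro x hx
        change x ∈ C at hx
        let V' : Subalgebra k F :=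
          { (chart (Inv A σ) Mq (s : F)).toSubring with
            algebraMap_mem' := fun c =>
              Subalgebra.algebraMap_mem (chart (Inv A σ) Mq (s : F)) (algebraMap k (Inv A σ) c) }
        have h1 : C ≤ V' := Algebra.adjoin_le (by
          rintro _ (⟨a, rfl⟩ | ⟨i, rfl⟩)
          · exact Subalgebra.algebraMap_mem (chart (Inv A σ) Mq (s : F)) a
          · change g (z i) / g (z s) ∈ _
            rw [hratio]
            exact Algebra.subset_adjoin ⟨_, hGM _ i.2, rfl⟩)
        exact h1 hx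
    refine smooth_of_regular (B := C) ?_
    have key : ∀ (R R' : Subring F) (h : R = R'),
        (∀ (q : Ideal R) [q.IsPrime], IsRegularLocalRing (Localization.AtPrime q)) →
        ∀ (q : Ideal R') [q.IsPrime], IsRegularLocalRing (Localization.AtPrime q) := by
      rintro R R' rfl h
      exact h
    intro q hq
    exact key _ _ hCeq (fun q hq => hreg (s : F) (hGM _ s.2) hs0 q) q

end Pool.Agent.V1128.INV
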