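import Pool.Agent.Y223.INV.Fin
import Pool.Agent.V1128.INV.Sm
import Pool.Agent.H920R2.Trans
import Pool.Agent.H920R2.Sr1

/-!
# Resolution of affine varieties from modules with regular charts
-/

set_option autoImplicit false
set_option linter.unusedVariables false
set_option linter.unusedSectionVars false

open AlgebraicGeometry CategoryTheory

namespace Pool.Agent.V1128.INV

open IsLocalRing Pool.Agent.TH188.QS Pool.Agent.TH188.ARC Pool.Agent.W418.LU2
  Pool.Agent.H918R2.Quad Pool.Agent.Y223.INV Pool.Agent.H920R2

theorem res_of_hasModule {k B F : Type} [Field k] [PerfectField k] [CommRing B] [IsDomain B]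
    [Algebra k B] (hft : Algebra.FiniteType k B) [Field F] [Algebra B F] [IsFractionRing B F]
    (h : HasModule B F) :
    IsVariety (X := Spec (CommRingCat.of B)) (Spec.map (CommRingCat.ofHom (algebraMap k B))) ∧
    HasResolution (X := Spec (CommRingCat.of B))
      (Spec.map (CommRingCat.ofHom (algebraMap k B))) := by
  classical
  refine ⟨isVariety_spec, ?_⟩
  let _ : Algebra k F := ((algebraMap B F).comp (algebraMap k B)).toAlgebra
  let g : B →ₐ[k] F := { algebraMap B F with commutes' := fun _ => rfl }
  have hgB : ∀ b, g b = algebraMap B F b := fun _ => rfl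
  have hg : Function.Injective g := IsFractionRing.injective B F
  obtain ⟨M, ⟨G, hG⟩, ⟨f₀, hf₀, hf₀0⟩, -, hreg⟩ := h
  have hGM : ∀ f ∈ G, f ∈ M := fun f hf => hG ▸ Submodule.subset_span hf
  have hG0 : ∃ f ∈ G, f ≠ 0 := by
    by_contra hcon
    push Not at hcon
    apply hf₀0
    have h1 : Submodule.span B (G : Set F) ≤ ⊥ := by
      rw [Submodule.span_le]
      intro f hf
      exact hcon f hf
    rw [hG] at h1
    exact (Submodule.mem_bot _).1 (h1 hf₀)
  obtain ⟨b, hb⟩ := IsLocalization.exist_integer_multiples_of_finset (nonZeroDivisors B) G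
  have hb' : ∀ f : G, ∃ c : B, algebraMap B F c = algebraMap B F b * (f : F) := by
    intro f
    obtain ⟨c, hc⟩ := hb f f.2
    exact ⟨c, by rw [hc, Algebra.smul_def]⟩
  choose z hz using hb'
  have hw2 : algebraMap B F b ≠ 0 := fun h =>
    nonZeroDivisors.ne_zero b.2 (hg (by rw [hgB, h, map_zero]))
  have hgz : ∀ f : G, g (z f) = algebraMap B F b * (f : F) := fun f => hz f
  have hratio : ∀ f f' : G, g (z f) / g (z f') = (f : F) / (f' : F) := by
    intro f f'
    rw [hgz, hgz, mul_div_mul_left _ _ hw2]
  have hz0 : ∀ f : G, z f ≠ 0 ↔ (f : F) ≠ 0 := by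
    intro f
    rw [← (map_ne_zero_iff g hg), hgz]
    exact ⟨right_ne_zero_of_mul, mul_ne_zero hw2⟩
  refine hasResolution_of_charts' g hg z Set.univ ?_ ?_
  · intro V hV
    obtain ⟨f₁, hf₁, hf₁0⟩ := hG0
    have : Nonempty G := ⟨⟨f₁, hf₁⟩⟩
    obtain ⟨s, hs⟩ := Finite.exists_max (fun i : G => V.valuation (i : F))
    have hs0 : (s : F) ≠ 0 := by
      intro h
      have h1 := hs ⟨f₁, hf₁⟩
      rw [h, map_zero, le_zero_iff] at h1
      exact hf₁0 ((Valuation.zero_iff _).1 h1)
    refine ⟨s, trivial, (hz0 s).2 hs0, fun i => ?_⟩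
    rw [hratio, ← V.valuation_le_one_iff, map_div₀]
    exact div_le_one_of_le₀ (hs i) zero_le
  · intro s _ hs
    have hs0 : (s : F) ≠ 0 := (hz0 s).1 hs
    set C := Algebra.adjoin k (Set.range g ∪ Set.range fun i => g (z i) / g (z s)) with hC
    refine ⟨C, ?_, fun a => Algebra.subset_adjoin (Or.inl ⟨a, rfl⟩),
      fun i => Algebra.subset_adjoin (Or.inr ⟨i, rfl⟩), le_rfl⟩
    have hCfg : C.FG := by
      rw [hC, Algebra.adjoin_union]
      refine Subalgebra.FG.sup ?_ (Subalgebra.fg_def.2 ⟨_, Set.finite_range _, rfl⟩)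
      have h1 : Algebra.adjoin k (Set.range g) = g.range := by
        have : Set.range g = (g.range : Set F) := rfl
        rw [this, Algebra.adjoin_eq]
      rw [h1]
      have : g.range = (⊤ : Subalgebra k B).map g := (Algebra.map_top g).symm
      rw [this]
      exact Subalgebra.FG.map g hft.1
    have hCft : Algebra.FiniteType k C := (Subalgebra.fg_iff_finiteType C).1 hCfg
    have hCeq : (chart B M (s : F)).toSubring = C.toSubring := by
      apply le_antisymm
      · let V' : Subalgebra B F :=
          { C.toSubring with algebraMap_mem' := fun x => Algebra.subset_adjoin (Or.inl ⟨x, rfl⟩) }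
        have : chart B M (s : F) ≤ V' := Algebra.adjoin_le (by
          rintro _ ⟨m, hm, rfl⟩
          rw [← hG] at hm
          induction hm using Submodule.span_induction with
          | mem m hm =>
            have h1 : m / (s : F) = g (z ⟨m, hm⟩) / g (z s) := (hratio ⟨m, hm⟩ s).symm
            rw [h1]
            exact Algebra.subset_adjoin (Or.inr ⟨⟨m, hm⟩, rfl⟩)
          | zero => rw [zero_div]; exact V'.zero_mem
          | add a b _ _ ha hb => rw [add_div]; exact V'.add_mem ha hb
          | smul c a _ ha =>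
            have h1 : (c • a) / (s : F) = c • (a / (s : F)) := smul_div_assoc c a _
            rw [h1]
            exact V'.smul_mem ha c)
        exact this
      · intro x hx
        change x ∈ C at hx
        let V' : Subalgebra k F :=
          { (chart B M (s : F)).toSubring with
            algebraMap_mem' := fun c =>
              Subalgebra.algebraMap_mem (chart B M (s : F)) (algebraMap k B c) }
        have h1 : C ≤ V' := Algebra.adjoin_le (by
          rintro _ (⟨a, rfl⟩ | ⟨i, rfl⟩)
          · exact Subalgebra.algebraMap_mem (chart B M (s : F)) a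
          · change g (z i) / g (z s) ∈ _
            rw [hratio]
            exact Algebra.subset_adjoin ⟨_, hGM _ i.2, rfl⟩)
        exact h1 hx
    refine smooth_of_regular (B := C) ?_
    have key : ∀ (R R' : Subring F) (h : R = R'),
        (∀ (q : Ideal R) [q.IsPrime], IsRegularLocalRing (Localization.AtPrime q)) →
        ∀ (q : Ideal R') [q.IsPrime], IsRegularLocalRing (Localization.AtPrime q) := by
      rintro R R' rfl h
      exact h
    intro q hq
    exact key _ _ hCeq (fun q hq => hreg (s : F) (hGM _ s.2) hs0 q) q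

/-- Resolution descends along quadratic extensions. -/
theorem res_descent {k B K : Type} [Field k] [PerfectField k] [CommRing B] [IsDomain B]
    [Algebra k B] (hft : Algebra.FiniteType k B) [Field K] [Algebra B K]
    (hinj : Function.Injective (algebraMap B K)) {N : ℕ} (H : Fin (N + 1) → K)
    (hH : ∀ j, H j ≠ 0) (hreg : ∀ j, IsRegularRing (CR B H j))
    (hcl : Subfield.closure (CR B H 0 : Set K) = ⊤)
    (σ : K ≃ₐ[B] K) (hσ : ∀ y, σ (σ y) = y) (hσ1 : ∃ x, σ x ≠ x)
    (hσH : ∀ j, σ (H j) ∈ Submodule.span B (Set.range H))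
    (hinv : ∀ y, σ y = y → ∃ r s : B, s ≠ 0 ∧ y = algebraMap B K r / algebraMap B K s)
    (I : Submodule B K) (hI : I ≤ Submodule.span B (Set.range H)) (hI0 : I ≠ ⊥)
    (hσI : ∀ x ∈ I, σ x ∈ I)
    (h : ∀ j (𝔮 : Ideal (CR B H j)) [𝔮.IsPrime], PC σ (LocalSubring.ofPrime (CR B H j) 𝔮).toSubring
      (IA I (H j) (LocalSubring.ofPrime (CR B H j) 𝔮).toSubring)) :
    IsVariety (X := Spec (CommRingCat.of B)) (Spec.map (CommRingCat.ofHom (algebraMap k B))) ∧
    HasResolution (X := Spec (CommRingCat.of B))
      (Spec.map (CommRingCat.ofHom (algebraMap k B))) := by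
  have hnoeth : IsNoetherianRing B := Algebra.FiniteType.isNoetherianRing k B
  let F := FractionRing B
  let _ : Algebra F K := (IsFractionRing.lift (A := B) (K := F) hinj : F →+* K).toAlgebra
  have hst : IsScalarTower B F K := IsScalarTower.of_algebraMap_eq fun r =>
    (IsFractionRing.lift_algebraMap hinj r).symm
  have hF : ∀ x, σ x = x ↔ ∃ f : F, algebraMap F K f = x := by
    intro x
    constructor
    · intro hx
      obtain ⟨r, s, hs, rfl⟩ := hinv x hx
      refine ⟨algebraMap B F r / algebraMap B F s, ?_⟩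
      rw [map_div₀, ← IsScalarTower.algebraMap_apply, ← IsScalarTower.algebraMap_apply]
    · rintro ⟨f, rfl⟩
      obtain ⟨r, s, hs, rfl⟩ := IsFractionRing.div_surjective (A := B) f
      rw [map_div₀, ← IsScalarTower.algebraMap_apply, ← IsScalarTower.algebraMap_apply,
        map_div₀, σ.commutes, σ.commutes]
  exact res_of_hasModule hft (F := F) (inv_module (F := F) hinj H hH hreg 0 hcl σ hσ hσ1 hσH I hI
    hI0 hσI h hF)

end Pool.Agent.V1128.INV
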